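import Pool.Agent.W749.TF.C2

set_option autoImplicit false

open MeasureTheory Set Filter Topology

namespace Pool.Agent.W749.TF
open Pool.Agent.W807.TF

/-- integral over an interval of the difference quotient -/
theorem dq_int {ub : ℝ → ℝ} {ε : ℝ} {u U : ℝ → ℝ → ℝ} (h : NL ub ε u U) (t p q : ℝ) :
    ∫ x in p..q, dq ε U t x = av ε (U t) q - av ε (U t) p := by
  have hUc : Continuous (fun y => U t y) := h.pot.cont_x t
  apply intervalIntegral.integral_eq_sub_of_hasDerivAt
  · intro x _
    exact av_deriv hUc ε x
  · exact (h.pot.dq_cont.comp (Continuous.prodMk_right t)).intervalIntegrable _ _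

/-- iterated integral of a sum -/
theorem ii_add {f g : ℝ → ℝ → ℝ} (hf : Measurable (Function.uncurry f))
    (hg : Measurable (Function.uncurry g)) {M N : ℝ} (hbf : ∀ t x, |f t x| ≤ M)
    (hbg : ∀ t x, |g t x| ≤ N) (T B : ℝ) :
    ∫ t in (0:ℝ)..T, ∫ x in (-B)..B, (f t x + g t x) =
      (∫ t in (0:ℝ)..T, ∫ x in (-B)..B, f t x) + ∫ t in (0:ℝ)..T, ∫ x in (-B)..B, g t x := by
  rw [← intervalIntegral.integral_add
    (ii_of_bdd (meas_inner hf (-B) B) (fun t => abs_inner_le (hbf t) _ _) _ _)
    (ii_of_bdd (meas_inner hg (-B) B) (fun t => abs_inner_le (hbg t) _ _) _ _)]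
  apply intervalIntegral.integral_congr
  intro t _
  exact intervalIntegral.integral_add (ii_of_bdd (hf.comp measurable_prodMk_left) (hbf t) _ _)
    (ii_of_bdd (hg.comp measurable_prodMk_left) (hbg t) _ _)

theorem ii_smul {f : ℝ → ℝ → ℝ} (c T B : ℝ) :
    ∫ t in (0:ℝ)..T, ∫ x in (-B)..B, c * f t x = c * ∫ t in (0:ℝ)..T, ∫ x in (-B)..B, f t x := by
  rw [← intervalIntegral.integral_const_mul]
  apply intervalIntegral.integral_congr
  intro t _
  exact intervalIntegral.integral_const_mul _ _

theorem ii_mono {f g : ℝ → ℝ → ℝ} (hf : Measurable (Function.uncurry f))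
    (hg : Measurable (Function.uncurry g)) {M N : ℝ} (hbf : ∀ t x, |f t x| ≤ M)
    (hbg : ∀ t x, |g t x| ≤ N) {T B : ℝ} (hT : 0 ≤ T) (hB : 0 ≤ B) (hfg : ∀ t x, f t x ≤ g t x) :
    ∫ t in (0:ℝ)..T, ∫ x in (-B)..B, f t x ≤ ∫ t in (0:ℝ)..T, ∫ x in (-B)..B, g t x := by
  apply intervalIntegral.integral_mono_on hT
  · exact ii_of_bdd (meas_inner hf (-B) B) (fun t => abs_inner_le (hbf t) _ _) _ _
  · exact ii_of_bdd (meas_inner hg (-B) B) (fun t => abs_inner_le (hbg t) _ _) _ _
  · intro t _
    apply intervalIntegral.integral_mono_on (by linarith)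
    · exact ii_of_bdd (hf.comp measurable_prodMk_left) (hbf t) _ _
    · exact ii_of_bdd (hg.comp measurable_prodMk_left) (hbg t) _ _
    · intro x _
      exact hfg t x

theorem ii_const (c T B : ℝ) : ∫ t in (0:ℝ)..T, ∫ _ in (-B)..B, c = 2 * B * T * c := by
  simp only [intervalIntegral.integral_const, smul_eq_mul]
  ring

theorem taskC (hHL : TaskHL) (hA : TaskA) (hD : TaskD) (hWk : TaskWk) : TaskC := by
  intro ub u U h T B hT hB
  have hdat : Dat ub := (h 1 one_pos).dat
  have hF := hHL (prim ub) hdat.ml
  set w : ℝ → ℝ → ℝ := ww (prim ub) with hw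
  have mw : Measurable (Function.uncurry w) := ww_meas hF
  have w01 : ∀ t x, w t x ∈ Icc (0:ℝ) 1 := fun t x => ww_mem hF t x
  have mwt : ∀ t, Measurable (w t) := fun t => (ww_01 hF).meas_x t
  have hBB : -B ≤ B := by linarith
  have habs01 : ∀ {p : ℝ}, p ∈ Icc (0:ℝ) 1 → |p| ≤ 1 := fun hp => by
    rw [abs_of_nonneg hp.1]; exact hp.2
  have hmul01 : ∀ {p q : ℝ}, p ∈ Icc (0:ℝ) 1 → q ∈ Icc (0:ℝ) 1 → p * q ∈ Icc (0:ℝ) 1 :=
    fun hp hq => ⟨mul_nonneg hp.1 hq.1, mul_le_one₀ hp.2 hq.1 hq.2⟩
  have h1sub : ∀ {p : ℝ}, p ∈ Icc (0:ℝ) 1 → 1 - p ∈ Icc (0:ℝ) 1 := fun hp =>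
    ⟨by linarith [hp.2], by linarith [hp.1]⟩
  have hdiff : ∀ {p q : ℝ}, p ∈ Icc (0:ℝ) 1 → q ∈ Icc (0:ℝ) 1 → |p - q| ≤ 1 := by
    intro p q hp hq
    rw [abs_le]
    constructor <;> linarith [hp.1, hp.2, hq.1, hq.2]
  -- closeness to the Hopf–Lax function
  have hclose : ∀ ε, 0 < ε → ε ≤ 1 → ∀ t ∈ Icc (0:ℝ) T, ∀ x,
      |U ε t x - Psi (prim ub) t x| ≤ (1 + T) * Real.sqrt ε := by
    intro ε hε hε1 t ht x
    have h1 := hA ub ε (u ε) (U ε) (h ε hε) hε1 t x ht.1
    unfold Psi
    rw [max_eq_left ht.1]
    refine h1.trans ?_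
    gcongr
    exact ht.2
  have hsqrt : Tendsto (fun ε : ℝ => Real.sqrt ε) (𝓝[>] 0) (𝓝 0) := by
    have := (Real.continuous_sqrt.tendsto 0).mono_left (nhdsWithin_le_nhds (s := Ioi (0:ℝ)))
    simpa using this
  have hid : Tendsto (fun ε : ℝ => ε) (𝓝[>] 0) (𝓝 0) := nhdsWithin_le_nhds
  have hev : ∀ᶠ ε in 𝓝[>] (0:ℝ), 0 < ε ∧ ε ≤ 1 := by
    filter_upwards [Ioc_mem_nhdsGT (show (0:ℝ) < 1 by norm_num)] with ε hε
    exact hε
  -- the jumps
  obtain ⟨C, hC⟩ := hD T B hT hB
  set J : ℝ → ℝ := fun ε => ∫ t in (0:ℝ)..T, ∫ x in (-B)..B, |u ε t (x + ε) - u ε t x| with hJ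
  have hJ0 : Tendsto J (𝓝[>] 0) (𝓝 0) := by
    apply squeeze_sig (A := 2 * B * T) (Z := fun σ ε => 1 / σ ^ 2 * (C * ε)) (by positivity)
    · refine Eventually.of_forall fun ε => ?_
      apply intervalIntegral.integral_nonneg hT.le
      intro t _
      exact intervalIntegral.integral_nonneg hBB fun x _ => abs_nonneg _
    · intro σ hσ
      filter_upwards [hev] with ε hε
      have h1 := jump (h ε hε.1) hT.le hB.le hσ
      have h2 := hC ub ε (u ε) (U ε) (h ε hε.1) hε.2
      refine h1.trans ?_
      gcongr
    · intro σ _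
      have := (hid.const_mul C).const_mul (1 / σ ^ 2)
      simpa using this
  -- the quantities
  set S : ℝ := ∫ t in (0:ℝ)..T, ∫ x in (-B)..B, w t x * w t x with hS
  set P : ℝ → ℝ := fun ε => ∫ t in (0:ℝ)..T, ∫ x in (-B)..B, dq ε (U ε) t x * dq ε (U ε) t x
    with hP
  set Q : ℝ → ℝ := fun ε => ∫ t in (0:ℝ)..T, ∫ x in (-B)..B, dq ε (U ε) t x * w t x with hQ
  set R1 : ℝ → ℝ := fun ε => 2 * T * ((1 + T) * Real.sqrt ε) + 2 * B * ((1 + T) * Real.sqrt ε) +
    2 * ε * T + J ε with hR1
  have hR10 : Tendsto R1 (𝓝[>] 0) (𝓝 0) := by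
    have h1 := (((hsqrt.const_mul (1 + T)).const_mul (2 * T)).add
      ((hsqrt.const_mul (1 + T)).const_mul (2 * B))).add ((hid.const_mul 2).mul_const T)
    have h2 := h1.add hJ0
    simpa using h2
  -- upper bound for `P`
  have hPle : ∀ ε, 0 < ε → ε ≤ 1 → P ε ≤ S + R1 ε := by
    intro ε hε hε1
    have hε' := h ε hε
    set a : ℝ → ℝ → ℝ := dq ε (U ε) with ha
    have ma : Measurable (Function.uncurry a) := mdq hε' ε
    have mu : Measurable (Function.uncurry (u ε)) := hε'.u01.1
    have a01 : ∀ t x, a t x ∈ Icc (0:ℝ) 1 := fun t x => hε'.pot.dq_mem hε t x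
    have u01 : ∀ t x, u ε t x ∈ Icc (0:ℝ) 1 := fun t x => hε'.u01.2 t x
    have e1 : P ε = (∫ t in (0:ℝ)..T, ∫ x in (-B)..B, u ε t x) +
        ((-1) * (∫ t in (0:ℝ)..T, ∫ x in (-B)..B, u ε t x * (1 - a t x)) +
        (-1) * (∫ t in (0:ℝ)..T, ∫ x in (-B)..B, a t x * (u ε t x - a t x))) := by
      have m1 : Measurable (Function.uncurry fun t x => u ε t x * (1 - a t x)) :=
        mu.mul (measurable_const.sub ma)
      have m2 : Measurable (Function.uncurry fun t x => a t x * (u ε t x - a t x)) :=
        ma.mul (mu.sub ma)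
      have b1 : ∀ t x, |u ε t x * (1 - a t x)| ≤ 1 := fun t x =>
        habs01 (hmul01 (u01 t x) (h1sub (a01 t x)))
      have b2 : ∀ t x, |a t x * (u ε t x - a t x)| ≤ 1 := fun t x => by
        rw [abs_mul]
        calc |a t x| * |u ε t x - a t x| ≤ 1 * 1 := by
              gcongr
              · exact habs01 (a01 t x)
              · exact hdiff (u01 t x) (a01 t x)
          _ = 1 := one_mul _
      have m1' : Measurable (Function.uncurry fun t x => (-1:ℝ) * (u ε t x * (1 - a t x))) :=
        measurable_const.mul m1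
      have m2' : Measurable (Function.uncurry fun t x => (-1:ℝ) * (a t x * (u ε t x - a t x))) :=
        measurable_const.mul m2
      have m3' : Measurable (Function.uncurry fun t x => (-1:ℝ) * (u ε t x * (1 - a t x)) +
        (-1:ℝ) * (a t x * (u ε t x - a t x))) := m1'.add m2'
      rw [← ii_smul, ← ii_smul, ← ii_add m1' m2' (M := 1) (N := 1),
        ← ii_add mu m3' (M := 1) (N := 2)]
      · simp only [hP]
        apply intervalIntegral.integral_congr
        intro t _
        apply intervalIntegral.integral_congr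
        intro x _
        simp only [ha]
        ring
      · exact fun t x => habs01 (u01 t x)
      · intro t x
        refine (abs_add_le _ _).trans ?_
        rw [abs_mul (-1:ℝ), abs_mul (-1:ℝ), abs_neg, abs_one]
        linarith [b1 t x, b2 t x]
      · intro t x
        rw [abs_mul, abs_neg, abs_one, one_mul]
        exact b1 t x
      · intro t x
        rw [abs_mul, abs_neg, abs_one, one_mul]
        exact b2 t x
    have e2 : ∫ t in (0:ℝ)..T, ∫ x in (-B)..B, u ε t x ≤
        (∫ t in (0:ℝ)..T, ∫ x in (-B)..B, w t x) + 2 * T * ((1 + T) * Real.sqrt ε) := by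
      rw [mass hε' hT.le]
      have h1 : ∫ t in (0:ℝ)..T, (U ε t B - U ε t (-B)) ≤
          ∫ t in (0:ℝ)..T, ((∫ x in (-B)..B, w t x) + 2 * ((1 + T) * Real.sqrt ε)) := by
        apply intervalIntegral.integral_mono_on hT.le
        · apply Continuous.intervalIntegrable
          exact (hε'.pot.cont.comp (Continuous.prodMk_left B)).sub
            (hε'.pot.cont.comp (Continuous.prodMk_left (-B)))
        · exact (ii_of_bdd (meas_inner mw (-B) B)
            (fun t => abs_inner_le (fun x => habs01 (w01 t x)) _ _) _ _).add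
            intervalIntegrable_const
        · intro t ht
          rw [hw, ww_int hF]
          have h2 := abs_le.1 (hclose ε hε hε1 t ht B)
          have h3 := abs_le.1 (hclose ε hε hε1 t ht (-B))
          linarith [h2.2, h3.1]
      refine h1.trans (le_of_eq ?_)
      rw [intervalIntegral.integral_add (ii_of_bdd (meas_inner mw (-B) B)
            (fun t => abs_inner_le (fun x => habs01 (w01 t x)) _ _) _ _)
            intervalIntegrable_const, intervalIntegral.integral_const, smul_eq_mul]
      ring
    have e3 : (∫ t in (0:ℝ)..T, ∫ x in (-B)..B, w t x * (1 - w t x)) -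
        2 * B * ((1 + T) * Real.sqrt ε) ≤
        ∫ t in (0:ℝ)..T, ∫ x in (-B)..B, u ε t x * (1 - a t x) := by
      rw [ha, flux hε' hT.le hB.le]
      have h1 := ww_pde hF hT.le hB.le
      have h2 : ∫ x in (-B)..B, (prim ub x - Psi (prim ub) T x) ≤
          ∫ x in (-B)..B, ((prim ub x - U ε T x) + (1 + T) * Real.sqrt ε) := by
        have c1 : Continuous (prim ub) := by
          have : prim ub = fun x => U ε 0 x := by
            funext x; rw [hε'.pot.init]
          rw [this]
          exact hε'.pot.cont_x 0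
        have c2 : Continuous (fun x => Psi (prim ub) T x) :=
          (Psi_cont hF).comp (Continuous.prodMk_right T)
        have c3 : Continuous (fun x => U ε T x) := hε'.pot.cont_x T
        apply intervalIntegral.integral_mono_on hBB
        · exact (c1.sub c2).intervalIntegrable _ _
        · exact ((c1.sub c3).add continuous_const).intervalIntegrable _ _
        · intro x _
          have h3 := abs_le.1 (hclose ε hε hε1 T ⟨hT.le, le_rfl⟩ x)
          linarith [h3.2]
      have h3 : ∫ x in (-B)..B, ((prim ub x - U ε T x) + (1 + T) * Real.sqrt ε) =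
          (∫ x in (-B)..B, (prim ub x - U ε T x)) + 2 * B * ((1 + T) * Real.sqrt ε) := by
        have c1 : Continuous (prim ub) := by
          have : prim ub = fun x => U ε 0 x := by
            funext x; rw [hε'.pot.init]
          rw [this]
          exact hε'.pot.cont_x 0
        have c3 : Continuous (fun x => U ε T x) := hε'.pot.cont_x T
        rw [intervalIntegral.integral_add (f := fun x => prim ub x - U ε T x)
          (g := fun _ => (1 + T) * Real.sqrt ε) ((c1.sub c3).intervalIntegrable _ _)
          intervalIntegrable_const, intervalIntegral.integral_const, smul_eq_mul]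
        ring
      rw [h3] at h2
      linarith
    have e4 : (-1) * (∫ t in (0:ℝ)..T, ∫ x in (-B)..B, a t x * (u ε t x - a t x)) ≤
        2 * ε * T + J ε := by
      have m2 : Measurable (Function.uncurry fun t x => a t x * (u ε t x - a t x)) :=
        ma.mul (mu.sub ma)
      have b2 : ∀ t x, |a t x * (u ε t x - a t x)| ≤ 1 := fun t x => by
        rw [abs_mul]
        calc |a t x| * |u ε t x - a t x| ≤ 1 * 1 := by
              gcongr
              · exact habs01 (a01 t x)
              · exact hdiff (u01 t x) (a01 t x)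
          _ = 1 := one_mul _
      have mj : Measurable (Function.uncurry fun t x => |u ε t (x + ε) - u ε t x|) :=
        ((msh mu ε).sub mu).abs
      have bj : ∀ t x, |(|u ε t (x + ε) - u ε t x|)| ≤ 1 := fun t x => by
        rw [abs_abs]; exact hdiff (u01 _ _) (u01 _ _)
      rw [← intervalIntegral.integral_const_mul]
      have h1 : ∫ t in (0:ℝ)..T, (-1) * ∫ x in (-B)..B, a t x * (u ε t x - a t x) ≤
          ∫ t in (0:ℝ)..T, (2 * ε + ∫ x in (-B)..B, |u ε t (x + ε) - u ε t x|) := by
        apply intervalIntegral.integral_mono_ae_restrict hT.le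
        · exact (ii_of_bdd (meas_inner m2 (-B) B) (fun t => abs_inner_le (b2 t) _ _) _ _).const_mul _
        · exact intervalIntegrable_const.add
            (ii_of_bdd (meas_inner mj (-B) B) (fun t => abs_inner_le (bj t) _ _) _ _)
        · have hne : ∀ᵐ t : ℝ, t ≠ 0 := compl_mem_ae_iff.mpr (measure_singleton 0)
          have hp := (ae_restrict_iff' measurableSet_Ioi).1 (parts hε' hB.le)
          filter_upwards [ae_restrict_of_ae hne, ae_restrict_of_ae hp,
            ae_restrict_mem measurableSet_Icc] with t ht1 ht2 ht3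
          have ht0 : 0 < t := lt_of_le_of_ne ht3.1 (Ne.symm ht1)
          have h3 := (abs_le.1 (ht2 ht0)).1
          simp only [ha]
          linarith
      refine h1.trans (le_of_eq ?_)
      rw [intervalIntegral.integral_add intervalIntegrable_const
        (ii_of_bdd (meas_inner mj (-B) B) (fun t => abs_inner_le (bj t) _ _) _ _),
        intervalIntegral.integral_const, smul_eq_mul]
      simp only [hJ]
      ring
    have e5 : S = (∫ t in (0:ℝ)..T, ∫ x in (-B)..B, w t x) +
        (-1) * (∫ t in (0:ℝ)..T, ∫ x in (-B)..B, w t x * (1 - w t x)) := by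
      have m1 : Measurable (Function.uncurry fun t x => w t x * (1 - w t x)) :=
        mw.mul (measurable_const.sub mw)
      have m1' : Measurable (Function.uncurry fun t x => (-1:ℝ) * (w t x * (1 - w t x))) :=
        measurable_const.mul m1
      rw [← ii_smul, ← ii_add mw m1' (M := 1) (N := 1)]
      · apply intervalIntegral.integral_congr
        intro t _
        apply intervalIntegral.integral_congr
        intro x _
        simp only
        ring
      · exact fun t x => habs01 (w01 t x)
      · intro t x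
        rw [abs_mul, abs_neg, abs_one, one_mul]
        exact habs01 (hmul01 (w01 t x) (h1sub (w01 t x)))
    rw [e1, e5]
    simp only [hR1]
    linarith
  -- the limit of `Q`
  have hQlim : Tendsto Q (𝓝[>] 0) (𝓝 S) := by
    apply intervalIntegral.tendsto_integral_filter_of_dominated_convergence (fun _ => 1 * |B - -B|)
    · filter_upwards [hev] with ε hε
      have mm : Measurable (Function.uncurry fun t x => dq ε (U ε) t x * w t x) :=
        (mdq (h ε hε.1) ε).mul mw
      exact (meas_inner mm (-B) B).aestronglyMeasurable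
    · filter_upwards [hev] with ε hε
      refine ae_of_all _ fun t _ => ?_
      rw [Real.norm_eq_abs]
      exact abs_inner_le (fun x => habs01 (hmul01 ((h ε hε.1).pot.dq_mem hε.1 t x) (w01 t x))) _ _
    · exact intervalIntegrable_const
    · refine ae_of_all _ fun t ht => ?_
      rw [uIoc_of_le hT.le] at ht
      have ht' : t ∈ Icc (0:ℝ) T := ⟨ht.1.le, ht.2⟩
      apply hWk B (fun ε x => dq ε (U ε) t x) (w t) (w t) hB
      · exact fun ε hε => (mdq (h ε hε) ε).comp measurable_prodMk_left
      · exact mwt t
      · exact mwt t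
      · exact fun ε x hε => (h ε hε).pot.dq_mem hε t x
      · exact fun x => w01 t x
      · exact fun x => habs01 (w01 t x)
      · intro p q _ _ _
        rw [hw, ww_int hF]
        have hav : ∀ x, Tendsto (fun ε => av ε (U ε t) x) (𝓝[>] 0) (𝓝 (Psi (prim ub) t x)) := by
          intro x
          rw [tendsto_iff_dist_tendsto_zero]
          have h1 := hid.add (hsqrt.const_mul (1 + T))
          rw [mul_zero, add_zero] at h1
          apply squeeze_zero' (Eventually.of_forall fun ε => dist_nonneg) _ h1
          filter_upwards [hev] with ε hε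
          rw [Real.dist_eq]
          have h2 := av_close ((h ε hε.1).pot.lip_x t) hε.1 x
          have h3 := hclose ε hε.1 hε.2 t ht' x
          calc |av ε (U ε t) x - Psi (prim ub) t x| =
              |(U ε t x - Psi (prim ub) t x) - (U ε t x - av ε (U ε t) x)| := by congr 1; ring
            _ ≤ |U ε t x - Psi (prim ub) t x| + |U ε t x - av ε (U ε t) x| := abs_sub _ _
            _ ≤ ε + (1 + T) * Real.sqrt ε := by linarith
        refine ((hav q).sub (hav p)).congr' ?_
        filter_upwards [hev] with ε hε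
        rw [dq_int (h ε hε.1)]
  -- the square
  set X : ℝ → ℝ := fun ε => ∫ t in (0:ℝ)..T, ∫ x in (-B)..B,
    (dq ε (U ε) t x - w t x) * (dq ε (U ε) t x - w t x) with hX
  have hXe : ∀ ε, 0 < ε → X ε = P ε + ((-2) * Q ε + S) := by
    intro ε hε
    have hε' := h ε hε
    have ma : Measurable (Function.uncurry (dq ε (U ε))) := mdq hε' ε
    have a01 : ∀ t x, dq ε (U ε) t x ∈ Icc (0:ℝ) 1 := fun t x => hε'.pot.dq_mem hε t x
    have maa : Measurable (Function.uncurry fun t x => dq ε (U ε) t x * dq ε (U ε) t x) := ma.mul ma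
    have maw : Measurable (Function.uncurry fun t x => dq ε (U ε) t x * w t x) := ma.mul mw
    have mww : Measurable (Function.uncurry fun t x => w t x * w t x) := mw.mul mw
    have b1 : ∀ t x, |(-2) * (dq ε (U ε) t x * w t x)| ≤ 2 := fun t x => by
      rw [abs_mul, abs_neg, abs_two]
      have := habs01 (hmul01 (a01 t x) (w01 t x))
      linarith
    have b2 : ∀ t x, |w t x * w t x| ≤ 1 := fun t x => habs01 (hmul01 (w01 t x) (w01 t x))
    have maw' : Measurable (Function.uncurry fun t x => (-2:ℝ) * (dq ε (U ε) t x * w t x)) :=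
      measurable_const.mul maw
    have mall : Measurable (Function.uncurry fun t x => (-2:ℝ) * (dq ε (U ε) t x * w t x) +
      w t x * w t x) := maw'.add mww
    simp only [hX, hP, hQ, hS]
    rw [← ii_smul, ← ii_add maw' mww b1 b2, ← ii_add maa mall (M := 1) (N := 3)]
    · apply intervalIntegral.integral_congr
      intro t _
      apply intervalIntegral.integral_congr
      intro x _
      simp only
      ring
    · exact fun t x => habs01 (hmul01 (a01 t x) (a01 t x))
    · intro t x
      refine (abs_add_le _ _).trans ?_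
      linarith [b1 t x, b2 t x]
  have hX0 : Tendsto X (𝓝[>] 0) (𝓝 0) := by
    have h1 : Tendsto (fun ε => (S + R1 ε) + ((-2) * Q ε + S)) (𝓝[>] 0) (𝓝 0) := by
      have h2 := (hR10.const_add S).add ((hQlim.const_mul (-2)).add_const S)
      have e : S + 0 + (-2 * S + S) = 0 := by ring
      rwa [e] at h2
    apply squeeze_zero' _ _ h1
    · refine Eventually.of_forall fun ε => ?_
      apply intervalIntegral.integral_nonneg hT.le
      intro t _
      exact intervalIntegral.integral_nonneg hBB fun x _ => mul_self_nonneg _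
    · filter_upwards [hev] with ε hε
      rw [hXe ε hε.1]
      have := hPle ε hε.1 hε.2
      linarith
  -- conclusion
  have hY : Tendsto (fun ε => ∫ t in (0:ℝ)..T, ∫ x in (-B)..B, |dq ε (U ε) t x - w t x|)
      (𝓝[>] 0) (𝓝 0) := by
    apply squeeze_sig (A := 2 * B * T) (Z := fun σ ε => 1 / σ * X ε) (by positivity)
    · refine Eventually.of_forall fun ε => ?_
      apply intervalIntegral.integral_nonneg hT.le
      intro t _
      exact intervalIntegral.integral_nonneg hBB fun x _ => abs_nonneg _
    · intro σ hσ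
      filter_upwards [hev] with ε hε
      have hε' := h ε hε.1
      have ma : Measurable (Function.uncurry (dq ε (U ε))) := mdq hε' ε
      have a01 : ∀ t x, dq ε (U ε) t x ∈ Icc (0:ℝ) 1 := fun t x => hε'.pot.dq_mem hε.1 t x
      have md : Measurable (Function.uncurry fun t x => dq ε (U ε) t x - w t x) := ma.sub mw
      have mdd : Measurable (Function.uncurry fun t x =>
        1 / σ * ((dq ε (U ε) t x - w t x) * (dq ε (U ε) t x - w t x))) :=
        measurable_const.mul (md.mul md)
      have bd : ∀ t x, |dq ε (U ε) t x - w t x| ≤ 1 := fun t x => hdiff (a01 t x) (w01 t x)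
      have bdd : ∀ t x, |1 / σ * ((dq ε (U ε) t x - w t x) * (dq ε (U ε) t x - w t x))| ≤ 1 / σ := by
        intro t x
        rw [abs_mul, abs_mul, abs_of_pos (by positivity)]
        calc 1 / σ * (|dq ε (U ε) t x - w t x| * |dq ε (U ε) t x - w t x|) ≤ 1 / σ * (1 * 1) := by
              gcongr
              · exact bd t x
              · exact bd t x
          _ = _ := by ring
      have mabs : Measurable (Function.uncurry fun t x => |dq ε (U ε) t x - w t x|) := md.abs
      have msd : Measurable (Function.uncurry fun t x =>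
        σ + 1 / σ * ((dq ε (U ε) t x - w t x) * (dq ε (U ε) t x - w t x))) :=
        measurable_const.add mdd
      have mσ : Measurable (Function.uncurry fun (_ _ : ℝ) => σ) := measurable_const
      have h1 := ii_mono (f := fun t x => |dq ε (U ε) t x - w t x|)
        (g := fun t x => σ + 1 / σ * ((dq ε (U ε) t x - w t x) * (dq ε (U ε) t x - w t x)))
        mabs msd (M := 1) (N := σ + 1 / σ)
        (fun t x => by rw [abs_abs]; exact bd t x)
        (fun t x => (abs_add_le _ _).trans (by
          rw [abs_of_pos hσ]; exact add_le_add le_rfl (bdd t x))) hT.le hB.le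
        (fun t x => by
          set y := dq ε (U ε) t x - w t x
          rw [← abs_mul_abs_self y]
          have hy := abs_nonneg y
          rcases le_total |y| σ with h2 | h2
          · have : 0 ≤ 1 / σ * (|y| * |y|) := by positivity
            linarith
          · have h3 : |y| ≤ 1 / σ * (|y| * |y|) := by
              rw [one_div, inv_mul_eq_div, le_div_iff₀ hσ]
              nlinarith
            linarith)
      refine h1.trans (le_of_eq ?_)
      rw [ii_add mσ mdd (M := σ) (N := 1 / σ) (fun t x => by rw [abs_of_pos hσ]) bdd,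
        ii_const, ii_smul]
    · intro σ _
      have := hX0.const_mul (1 / σ)
      rwa [mul_zero] at this
  refine hY.congr fun ε => ?_
  apply intervalIntegral.integral_congr_ae
  refine ae_of_all _ fun t ht => ?_
  rw [uIoc_of_le hT.le] at ht
  apply intervalIntegral.integral_congr
  intro x _
  simp only [hw]
  unfold ww
  have : Psi (prim ub) t = fun y => HL (prim ub) t y := by
    funext y
    unfold Psi
    rw [max_eq_left ht.1.le]
  rw [this]

end Pool.Agent.W749.TF
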