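import Pool.Agent.W749.TF.Sk2

set_option autoImplicit false

open MeasureTheory Set Filter Topology

namespace Pool.Agent.W749.TF
open Pool.Agent.W807.TF

theorem sq_entPair : EntPair (fun l => l ^ 2) (fun l => 2 * l) 2 where
  meas' := by fun_prop
  bd' := fun l hl => by rw [abs_of_nonneg (by linarith [hl.1])]; linarith [hl.2]
  lip := fun a ha b hb => by
    rw [show a ^ 2 - b ^ 2 = (a + b) * (a - b) by ring, abs_mul]
    gcongr
    rw [abs_of_nonneg (by linarith [ha.1, hb.1])]
    linarith [ha.2, hb.2]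
  cont := by fun_prop
  chain := by
    intro f t a b hf hc
    have h1 := hf.pow 2
    have h2 := hc.unique h1
    rw [h2]
    simp

/-- the cutoff in space -/
noncomputable def chi (B x : ℝ) : ℝ := max 0 (min 1 (B + 1 - |x|))

theorem chi_nonneg (B x : ℝ) : 0 ≤ chi B x := le_max_left _ _

theorem chi_le_one (B x : ℝ) : chi B x ≤ 1 := max_le zero_le_one (min_le_left _ _)

theorem chi_one {B x : ℝ} (hx : |x| ≤ B) : chi B x = 1 := by
  unfold chi
  rw [min_eq_left (by linarith), max_eq_right zero_le_one]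

theorem chi_lip (B x y : ℝ) : |chi B x - chi B y| ≤ |x - y| := by
  unfold chi
  rw [max_comm 0, max_comm 0]
  refine (abs_max_sub_max_le_abs _ _ _).trans ?_
  rw [min_comm 1, min_comm 1]
  have h1 : |min (B + 1 - |x|) 1 - min (B + 1 - |y|) 1| ≤ |(B + 1 - |x|) - (B + 1 - |y|)| := by
    have := abs_min_sub_min_le_max (B + 1 - |x|) 1 (B + 1 - |y|) 1
    simpa using this
  refine h1.trans ?_
  rw [show (B + 1 - |x|) - (B + 1 - |y|) = |y| - |x| by ring]
  refine (abs_abs_sub_abs_le _ _).trans ?_
  rw [abs_sub_comm]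

theorem chi_test {B : ℝ} : TestFn (B + 1) 1 (fun _ x => chi B x) where
  lip := fun s t x y => by
    rw [one_mul]
    have := chi_lip B x y
    have := abs_nonneg (s - t)
    linarith
  supp := fun t x hx => by
    unfold chi
    rw [min_eq_right (by linarith), max_eq_left (by linarith)]

theorem taskD (hId : TaskId) : TaskD := by
  intro T B hT hB
  set R : ℝ := B + 3 with hR
  refine ⟨3 * (2 * R + T * (2 * R) + T * (2 * R)), ?_⟩
  intro ub ε u U h hε1
  have hε := h.eps
  have hφ := chi_test (B := B)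
  have hR0 : 0 < R := by positivity
  have hRR : -R ≤ R := by linarith
  have hM : |B + 1| + 1 = B + 2 := by rw [abs_of_pos (by linarith)]; ring
  have hc0 := chi_nonneg B
  have hc1 := chi_le_one B
  have hcabs : ∀ x, |chi B x| ≤ 1 := fun x => by rw [abs_of_nonneg (hc0 x)]; exact hc1 x
  have hcd : ∀ x, |deriv (chi B) x| ≤ 1 := fun x => TF_dx_bdd hφ 0 x
  have hcz : ∀ x, B + 2 ≤ |x| → chi B x = 0 := fun x hx => TF_zero hφ (t := 0) (by rw [hM]; exact hx)
  have hcdz : ∀ x, B + 2 ≤ |x| → deriv (chi B) x = 0 := fun x hx =>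
    TF_dx hφ (t := 0) (by rw [hM]; exact hx)
  have hcc : Continuous (chi B) := by
    have := hφ.cont.comp (Continuous.prodMk_right (0:ℝ))
    exact this
  -- the integrands
  set g : ℝ → ℝ → ℝ → ℝ := fun δ t x =>
    dq δ U t x ^ 2 * ((1 - dq ε U t x) * deriv (chi B) x - (u t (x + ε) - u t x) / ε * chi B x)
      + 2 * dq δ U t x * ((dq δ U t (x + ε) - dq δ U t x) / ε) * dq δ U t x * chi B x with hg
  set e : ℝ → ℝ → ℝ → ℝ := fun δ t x =>
    2 * dq δ U t x * ((dq δ U t (x + ε) - dq δ U t x) / ε) * (u t (x + δ) - dq δ U t x) * chi B x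
    with he
  set g0 : ℝ → ℝ → ℝ := fun t x =>
    u t x ^ 2 * ((1 - dq ε U t x) * deriv (chi B) x - (u t (x + ε) - u t x) / ε * chi B x)
      + 2 * u t x * ((u t (x + ε) - u t x) / ε) * u t x * chi B x with hg0
  -- measurability
  have msh : ∀ {v : ℝ → ℝ → ℝ}, Measurable (Function.uncurry v) → ∀ c : ℝ,
      Measurable (Function.uncurry fun t x => v t (x + c)) := by
    intro v hv c
    have : Measurable (fun p : ℝ × ℝ => ((p.1, p.2 + c) : ℝ × ℝ)) := by fun_prop
    exact hv.comp this
  have mu := h.u01.1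
  have mdq : ∀ δ, Measurable (Function.uncurry (dq δ U)) := fun δ => h.pot.dq_cont.measurable
  have mφ : Measurable (Function.uncurry fun (_ : ℝ) x => chi B x) := hφ.cont.measurable
  have mφx : Measurable (Function.uncurry fun (_ : ℝ) x => deriv (chi B) x) := TF_dx_meas hφ
  have mg : ∀ δ, Measurable (Function.uncurry (g δ)) := by
    intro δ
    have m3 := msh (mdq δ) ε
    exact (((mdq δ).pow_const 2).mul (((measurable_const.sub (mdq ε)).mul mφx).sub
      ((((msh mu ε).sub mu).div_const ε).mul mφ))).add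
      ((((measurable_const.mul (mdq δ)).mul ((m3.sub (mdq δ)).div_const ε)).mul (mdq δ)).mul mφ)
  have mg0 : Measurable (Function.uncurry g0) :=
    (((mu.pow_const 2).mul (((measurable_const.sub (mdq ε)).mul mφx).sub
      ((((msh mu ε).sub mu).div_const ε).mul mφ))).add
      ((((measurable_const.mul mu).mul (((msh mu ε).sub mu).div_const ε)).mul mu).mul mφ))
  have me : ∀ δ, Measurable (Function.uncurry (e δ)) := by
    intro δ
    have m3 := msh (mdq δ) ε
    exact (((measurable_const.mul (mdq δ)).mul ((m3.sub (mdq δ)).div_const ε)).mul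
      ((msh mu δ).sub (mdq δ))).mul mφ
  -- bounds
  have hdiff : ∀ {p q : ℝ}, p ∈ Icc (0:ℝ) 1 → q ∈ Icc (0:ℝ) 1 → |p - q| ≤ 1 := by
    intro p q hp hq
    rw [abs_le]
    constructor <;> linarith [hp.1, hp.2, hq.1, hq.2]
  have h1a : ∀ t x, |(1 - dq ε U t x)| ≤ 1 := fun t x => by
    have := h.pot.dq_mem hε t x
    rw [abs_le]; constructor <;> linarith [this.1, this.2]
  have h1a0 : ∀ t x, 0 ≤ (1 - dq ε U t x) := fun t x => by
    have := h.pot.dq_mem hε t x
    linarith [this.2]
  have hD : ∀ t x, |(u t (x + ε) - u t x) / ε| ≤ 1 / ε := fun t x => by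
    rw [abs_div, abs_of_pos hε]
    gcongr
    exact hdiff (h.u01.2 _ _) (h.u01.2 _ _)
  have bnd : ∀ (l m : ℝ), l ∈ Icc (0:ℝ) 1 → m ∈ Icc (0:ℝ) 1 → ∀ t x,
      |l ^ 2 * ((1 - dq ε U t x) * deriv (chi B) x - (u t (x + ε) - u t x) / ε * chi B x)
      + 2 * l * ((m - l) / ε) * l * chi B x| ≤ 1 + 1 / ε + 2 / ε := by
    intro l m hl hm t x
    have hl1 : |l| ≤ 1 := by rw [abs_of_nonneg hl.1]; exact hl.2
    have hl2 : |l ^ 2| ≤ 1 := by
      rw [abs_of_nonneg (sq_nonneg l)]
      nlinarith [hl.1, hl.2]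
    have h8 : |(m - l) / ε| ≤ 1 / ε := by
      rw [abs_div, abs_of_pos hε]
      gcongr
      exact hdiff hm hl
    calc _ ≤ |l ^ 2 * ((1 - dq ε U t x) * deriv (chi B) x - (u t (x + ε) - u t x) / ε * chi B x)| +
          |2 * l * ((m - l) / ε) * l * chi B x| := abs_add_le _ _
      _ ≤ 1 * (1 * 1 + 1 / ε * 1) + 2 * 1 * (1 / ε) * 1 * 1 := by
          rw [abs_mul, abs_mul, abs_mul, abs_mul, abs_mul, abs_two]
          gcongr
          · refine (abs_sub _ _).trans ?_
            rw [abs_mul, abs_mul]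
            gcongr
            · exact h1a t x
            · exact hcd x
            · exact hD t x
            · exact hcabs x
          · exact hcabs x
      _ = _ := by ring
  set Cg : ℝ := 1 + 1 / ε + 2 / ε with hCg
  have bg : ∀ δ, 0 < δ → ∀ t x, |g δ t x| ≤ Cg := fun δ hδ t x =>
    bnd _ _ (h.pot.dq_mem hδ t x) (h.pot.dq_mem hδ t (x + ε)) t x
  have bg0 : ∀ t x, |g0 t x| ≤ Cg := fun t x => bnd _ _ (h.u01.2 t x) (h.u01.2 t (x + ε)) t x
  have be' : ∀ δ, 0 < δ → ∀ t x, |e δ t x| ≤ 2 / ε * |u t (x + δ) - dq δ U t x| := by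
    intro δ hδ t x
    simp only [he]
    have hl := h.pot.dq_mem hδ t x
    have hm := h.pot.dq_mem hδ t (x + ε)
    have hl1 : |dq δ U t x| ≤ 1 := by rw [abs_of_nonneg hl.1]; exact hl.2
    have h8 : |(dq δ U t (x + ε) - dq δ U t x) / ε| ≤ 1 / ε := by
      rw [abs_div, abs_of_pos hε]
      gcongr
      exact hdiff hm hl
    rw [abs_mul, abs_mul, abs_mul, abs_mul, abs_two]
    calc 2 * |dq δ U t x| * |(dq δ U t (x + ε) - dq δ U t x) / ε| *
          |u t (x + δ) - dq δ U t x| * |chi B x| ≤
          2 * 1 * (1 / ε) * |u t (x + δ) - dq δ U t x| * 1 := by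
          gcongr
          exact hcabs x
      _ = _ := by ring
  have be : ∀ δ, 0 < δ → ∀ t x, |e δ t x| ≤ 2 / ε := by
    intro δ hδ t x
    refine (be' δ hδ t x).trans ?_
    calc 2 / ε * |u t (x + δ) - dq δ U t x| ≤ 2 / ε * 1 := by
          gcongr
          exact hdiff (h.u01.2 _ _) (h.pot.dq_mem hδ t x)
      _ = _ := mul_one _
  -- inner limits
  have hin1 : ∀ᵐ t ∂(volume.restrict (Ioi (0:ℝ))),
      Tendsto (fun δ => ∫ x in (-R)..R, g δ t x) (𝓝[>] 0) (𝓝 (∫ x in (-R)..R, g0 t x)) := by
    filter_upwards [space_deriv h] with t ht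
    apply intervalIntegral.tendsto_integral_filter_of_dominated_convergence (fun _ => Cg)
    · exact Eventually.of_forall fun δ =>
        ((mg δ).comp measurable_prodMk_left).aestronglyMeasurable
    · filter_upwards [self_mem_nhdsWithin] with δ hδ
      exact ae_of_all _ fun x _ => by rw [Real.norm_eq_abs]; exact bg δ hδ t x
    · exact intervalIntegrable_const
    · filter_upwards [ht, ae_shift ht ε] with x hx1 hx2 _
      have l1 := dq_tendsto hx1
      have l2 := dq_tendsto (t := t) (x := x + ε) hx2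
      exact ((l1.pow 2).mul_const _).add
        ((((l1.const_mul 2).mul ((l2.sub l1).div_const ε)).mul l1).mul_const _)
  have hin2 : ∀ᵐ t ∂(volume.restrict (Ioi (0:ℝ))),
      Tendsto (fun δ => ∫ x in (-R)..R, e δ t x) (𝓝[>] 0) (𝓝 0) := by
    filter_upwards [space_deriv h] with t ht
    have h1 := (small_lim h ht hR0.le).const_mul (2 / ε)
    rw [mul_zero] at h1
    apply squeeze_zero_norm' _ h1
    filter_upwards [self_mem_nhdsWithin] with δ hδ
    rw [← intervalIntegral.integral_const_mul]
    apply intervalIntegral.norm_integral_le_of_norm_le hRR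
    · refine ae_of_all _ fun x _ => ?_
      rw [Real.norm_eq_abs]
      exact be' δ hδ t x
    · apply IntervalIntegrable.const_mul
      have hm1 : Measurable (fun x => u t (x + δ)) :=
        (h.u01.meas_x t).comp (measurable_id.add_const δ)
      have hm2 : Measurable (fun x => dq δ U t x) :=
        (h.pot.dq_cont.comp (Continuous.prodMk_right t)).measurable
      exact ii_of_bdd (M := 1) (hm1.sub hm2).abs (fun x => by
        rw [abs_abs]
        exact hdiff (h.u01.2 t _) (h.pot.dq_mem hδ t x)) _ _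
  have mge : ∀ δ, Measurable (Function.uncurry fun t x => g δ t x + e δ t x) := fun δ =>
    (mg δ).add (me δ)
  -- outer limit
  have hout : Tendsto (fun δ => ∫ t in (0:ℝ)..T, ∫ x in (-R)..R, (g δ t x + e δ t x)) (𝓝[>] 0)
      (𝓝 (∫ t in (0:ℝ)..T, ∫ x in (-R)..R, g0 t x)) := by
    apply intervalIntegral.tendsto_integral_filter_of_dominated_convergence
      (fun _ => (Cg + 2 / ε) * |R - -R|)
    · refine Eventually.of_forall fun δ => ?_
      exact (meas_inner (mge δ) (-R) R).aestronglyMeasurable
    · filter_upwards [self_mem_nhdsWithin] with δ hδ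
      refine ae_of_all _ fun t _ => ?_
      rw [Real.norm_eq_abs]
      exact abs_inner_le (fun x => (abs_add_le _ _).trans (add_le_add (bg δ hδ t x) (be δ hδ t x))) _ _
    · exact intervalIntegrable_const
    · have h1 := (ae_restrict_iff' measurableSet_Ioi).1 hin1
      have h2 := (ae_restrict_iff' measurableSet_Ioi).1 hin2
      filter_upwards [h1, h2] with t ht1 ht2 ht3
      rw [uIoc_of_le hT.le] at ht3
      have ht0 : t ∈ Ioi (0:ℝ) := ht3.1
      have h3 := (ht1 ht0).add (ht2 ht0)
      rw [add_zero] at h3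
      refine h3.congr' ?_
      filter_upwards [self_mem_nhdsWithin] with δ hδ
      symm
      exact intervalIntegral.integral_add (f := g δ t) (g := e δ t)
        (ii_of_bdd ((mg δ).comp measurable_prodMk_left) (bg δ hδ t) _ _)
        (ii_of_bdd ((me δ).comp measurable_prodMk_left) (be δ hδ t) _ _)
  -- lower bound before the limit
  have hineq : ∀ᶠ δ in 𝓝[>] (0:ℝ),
      -(2 * R) ≤ ∫ t in (0:ℝ)..T, ∫ x in (-R)..R, (g δ t x + e δ t x) := by
    filter_upwards [self_mem_nhdsWithin] with δ hδ
    have hδ' : 0 < δ := hδ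
    have h1 := hId ub ε u U h (fun l => l ^ 2) (fun l => 2 * l) 2 sq_entPair 0 T (B + 1) 1
      (fun _ x => chi B x) le_rfl hT.le hφ δ hδ
    have e3 : ∀ t, (∫ x : ℝ,
          (dq δ U t x ^ 2 * deriv (fun _ : ℝ => chi B x) t
            + dq δ U t x ^ 2 * ((1 - dq ε U t x) * deriv (fun y => chi B y) x
                - (u t (x + ε) - u t x) / ε * chi B x)
            + 2 * dq δ U t x * ((dq δ U t (x + ε) - dq δ U t x) / ε) * u t (x + δ) * chi B x)) =
        ∫ x in (-R)..R, (g δ t x + e δ t x) := by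
      intro t
      rw [int_eq (R := R)]
      · apply intervalIntegral.integral_congr
        intro x _
        simp only [hg, he, deriv_const]
        ring
      · intro x hx
        have hx' : B + 2 ≤ |x| := by linarith
        have h2 : deriv (fun y => chi B y) x = 0 := hcdz x hx'
        rw [hcz x hx', h2, deriv_const]
        ring
    simp only [e3] at h1
    rw [← h1]
    have h2 : 0 ≤ ∫ x : ℝ, dq δ U T x ^ 2 * chi B x :=
      integral_nonneg fun x => mul_nonneg (sq_nonneg _) (hc0 x)
    have h3 : ∫ x : ℝ, dq δ U 0 x ^ 2 * chi B x ≤ 2 * R := by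
      rw [int_eq (R := R) (fun x hx => by rw [hcz x (by linarith), mul_zero])]
      have h4 := abs_inner_le (f := fun x => dq δ U 0 x ^ 2 * chi B x) (M := 1) (fun x => by
        have hl := h.pot.dq_mem hδ' 0 x
        rw [abs_of_nonneg (mul_nonneg (sq_nonneg _) (hc0 x))]
        have h5 : dq δ U 0 x ^ 2 ≤ 1 := by nlinarith [hl.1, hl.2]
        nlinarith [hc0 x, hc1 x, sq_nonneg (dq δ U 0 x)]) (-R) R
      rw [abs_of_nonneg (show 0 ≤ R - -R by linarith)] at h4
      exact (le_abs_self _).trans (h4.trans (by linarith))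
    linarith
  have hfinal := ge_of_tendsto hout hineq
  -- the shifted cubic
  have mchi : Measurable (chi B) := hcc.measurable
  set c3 : ℝ → ℝ → ℝ := fun t x => (u t (x + ε) ^ 3 - u t x ^ 3) / ε * chi B x with hc3
  set dd : ℝ → ℝ → ℝ := fun t x =>
    (u t (x + ε) - u t x) ^ 2 * (u t (x + ε) + 2 * u t x) / ε * chi B x with hdd
  set c1 : ℝ → ℝ → ℝ := fun t x => u t x ^ 2 * ((1 - dq ε U t x) * deriv (chi B) x) with hc1'
  have mc3 : Measurable (Function.uncurry c3) :=
    ((((msh mu ε).pow_const 3).sub (mu.pow_const 3)).div_const ε).mul mφ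
  have mdd : Measurable (Function.uncurry dd) :=
    (((((msh mu ε).sub mu).pow_const 2).mul ((msh mu ε).add (measurable_const.mul mu))).div_const
      ε).mul mφ
  have mc1 : Measurable (Function.uncurry c1) :=
    (mu.pow_const 2).mul ((measurable_const.sub (mdq ε)).mul mφx)
  have key : ∀ t x, g0 t x = c1 t x + (1 / 3) * c3 t x - (1 / 3) * dd t x := by
    intro t x
    simp only [hg0, hc1', hc3, hdd]
    field_simp
    ring
  have h01 : ∀ t x, u t x ∈ Icc (0:ℝ) 1 := fun t x => h.u01.2 t x
  have p3 : ∀ {p : ℝ}, p ∈ Icc (0:ℝ) 1 → p ^ 3 ∈ Icc (0:ℝ) 1 := fun hp =>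
    ⟨pow_nonneg hp.1 3, pow_le_one₀ hp.1 hp.2⟩
  have p2 : ∀ {p : ℝ}, p ∈ Icc (0:ℝ) 1 → p ^ 2 ∈ Icc (0:ℝ) 1 := fun hp =>
    ⟨pow_nonneg hp.1 2, pow_le_one₀ hp.1 hp.2⟩
  have bc3 : ∀ t x, |c3 t x| ≤ 1 / ε := by
    intro t x
    simp only [hc3]
    rw [abs_mul, abs_div, abs_of_pos hε]
    calc |u t (x + ε) ^ 3 - u t x ^ 3| / ε * |chi B x| ≤ 1 / ε * 1 := by
          gcongr
          · exact hdiff (p3 (h01 _ _)) (p3 (h01 _ _))
          · exact hcabs x
      _ = _ := mul_one _
  have bc1 : ∀ t x, |c1 t x| ≤ 1 := by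
    intro t x
    simp only [hc1']
    rw [abs_mul, abs_mul, abs_of_nonneg (p2 (h01 t x)).1]
    calc u t x ^ 2 * (|1 - dq ε U t x| * |deriv (chi B) x|) ≤ 1 * (1 * 1) := by
          gcongr
          · exact (p2 (h01 t x)).2
          · exact h1a t x
          · exact hcd x
      _ = 1 := by norm_num
  have bdd : ∀ t x, |dd t x| ≤ 3 / ε := by
    intro t x
    simp only [hdd]
    rw [abs_mul, abs_div, abs_of_pos hε, abs_mul, abs_pow]
    calc |u t (x + ε) - u t x| ^ 2 * |u t (x + ε) + 2 * u t x| / ε * |chi B x| ≤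
          1 ^ 2 * 3 / ε * 1 := by
          gcongr
          · exact hdiff (h01 _ _) (h01 _ _)
          · rw [abs_of_nonneg (by linarith [(h01 t x).1, (h01 t (x + ε)).1])]
            linarith [(h01 t x).2, (h01 t (x + ε)).2]
          · exact hcabs x
      _ = _ := by ring
  -- the integral of the cubic
  have hc3i : ∀ t, ∫ x in (-R)..R, c3 t x ≤ 2 * R := by
    intro t
    have hbs : ∀ {f : ℝ → ℝ}, Measurable f → (∀ x, |f x| ≤ 1) →
        (∀ x, R ≤ |x| → f x = 0) → Integrable f := by
      intro f hf hb hz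
      have e1 : f = (Icc (-R) R).indicator f := by
        funext x
        by_cases hx : x ∈ Icc (-R) R
        · rw [indicator_of_mem hx]
        · rw [indicator_of_notMem hx]
          apply hz
          by_contra hcon
          push Not at hcon
          rw [abs_lt] at hcon
          exact hx ⟨hcon.1.le, hcon.2.le⟩
      rw [e1, integrable_indicator_iff measurableSet_Icc]
      apply Measure.integrableOn_of_bounded (M := 1)
      · exact measure_Icc_lt_top.ne
      · exact hf.aestronglyMeasurable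
      · exact ae_of_all _ fun x => by rw [Real.norm_eq_abs]; exact hb x
    have mu1 : Measurable (u t) := h.u01.meas_x t
    have mu3 : Measurable (fun x => u t x ^ 3) := mu1.pow_const 3
    have mu3' : Measurable (fun x => u t (x + ε) ^ 3) := mu3.comp (measurable_id.add_const ε)
    have mchi' : Measurable (fun x => chi B (x - ε)) := mchi.comp (measurable_id.sub_const ε)
    have hz1 : ∀ x, R ≤ |x| → chi B (x - ε) = 0 := fun x hx => by
      apply hcz
      have := abs_sub_abs_le_abs_sub x ε
      rw [abs_of_pos hε] at this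
      linarith
    have hz0 : ∀ x, R ≤ |x| → chi B x = 0 := fun x hx => hcz x (by linarith)
    have bb : ∀ p q : ℝ, p ∈ Icc (0:ℝ) 1 → q ∈ Icc (0:ℝ) 1 → |p * q| ≤ 1 := by
      intro p q hp hq
      rw [abs_mul, abs_of_nonneg hp.1, abs_of_nonneg hq.1]
      nlinarith [hp.1, hp.2, hq.1, hq.2]
    have i2 : Integrable (fun x => u t (x + ε) ^ 3 * chi B x) := by
      apply hbs
      · exact mu3'.mul mchi
      · exact fun x => bb _ _ (p3 (h01 _ _)) ⟨hc0 _, hc1 _⟩
      · intro x hx; rw [hz0 x hx, mul_zero]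
    have i1 : Integrable (fun x => u t x ^ 3 * chi B x) := by
      apply hbs
      · exact mu3.mul mchi
      · exact fun x => bb _ _ (p3 (h01 _ _)) ⟨hc0 _, hc1 _⟩
      · intro x hx; rw [hz0 x hx, mul_zero]
    have i3 : Integrable (fun x => u t x ^ 3 * chi B (x - ε)) := by
      apply hbs
      · exact mu3.mul mchi'
      · exact fun x => bb _ _ (p3 (h01 _ _)) ⟨hc0 _, hc1 _⟩
      · intro x hx; rw [hz1 x hx, mul_zero]
    have e5 : ∫ x in (-R)..R, c3 t x = ∫ x : ℝ, c3 t x := by
      symm
      apply int_eq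
      intro x hx
      simp only [hc3]
      rw [hz0 x hx, mul_zero]
    have e6 : ∀ x, c3 t x = 1 / ε * (u t (x + ε) ^ 3 * chi B x - u t x ^ 3 * chi B x) := by
      intro x
      simp only [hc3]
      ring
    have h6 := integral_add_right_eq_self (μ := volume) (fun x => u t x ^ 3 * chi B (x - ε)) ε
    simp only [add_sub_cancel_right] at h6
    have e7 : ∫ x : ℝ, c3 t x = ∫ x : ℝ, u t x ^ 3 * ((chi B (x - ε) - chi B x) / ε) := by
      simp only [e6]
      rw [integral_const_mul, integral_sub i2 i1, h6, ← integral_sub i3 i1, ← integral_const_mul]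
      apply integral_congr_ae
      exact ae_of_all _ fun x => by ring
    have e8 : ∫ x : ℝ, u t x ^ 3 * ((chi B (x - ε) - chi B x) / ε) =
        ∫ x in (-R)..R, u t x ^ 3 * ((chi B (x - ε) - chi B x) / ε) :=
      int_eq fun x hx => by rw [hz0 x hx, hz1 x hx]; simp
    rw [e5, e7, e8]
    have h7 := abs_inner_le (f := fun x => u t x ^ 3 * ((chi B (x - ε) - chi B x) / ε)) (M := 1)
      (fun x => by
        rw [abs_mul, abs_div, abs_of_pos hε, abs_of_nonneg (p3 (h01 t x)).1]
        have h8 := chi_lip B (x - ε) x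
        rw [show x - ε - x = -ε by ring, abs_neg, abs_of_pos hε] at h8
        calc u t x ^ 3 * (|chi B (x - ε) - chi B x| / ε) ≤ 1 * (ε / ε) := by
              gcongr
              exact (p3 (h01 t x)).2
          _ = 1 := by rw [div_self hε.ne', mul_one]) (-R) R
    rw [abs_of_nonneg (show 0 ≤ R - -R by linarith)] at h7
    exact (le_abs_self _).trans (h7.trans (by linarith))
  have hc1i : ∀ t, ∫ x in (-R)..R, c1 t x ≤ 2 * R := by
    intro t
    have h7 := abs_inner_le (bc1 t) (-R) R
    rw [abs_of_nonneg (show 0 ≤ R - -R by linarith)] at h7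
    exact (le_abs_self _).trans (h7.trans (by linarith))
  -- assembling
  have hsplit : ∀ t, ∫ x in (-R)..R, g0 t x ≤ 2 * R + (1 / 3) * (2 * R) -
      (1 / 3) * ∫ x in (-R)..R, dd t x := by
    intro t
    have i1 : IntervalIntegrable (c1 t) volume (-R) R :=
      ii_of_bdd (mc1.comp measurable_prodMk_left) (bc1 t) _ _
    have i3 : IntervalIntegrable (c3 t) volume (-R) R :=
      ii_of_bdd (mc3.comp measurable_prodMk_left) (bc3 t) _ _
    have id' : IntervalIntegrable (dd t) volume (-R) R :=
      ii_of_bdd (mdd.comp measurable_prodMk_left) (bdd t) _ _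
    have e9 : ∫ x in (-R)..R, g0 t x = (∫ x in (-R)..R, c1 t x) +
        (1 / 3) * (∫ x in (-R)..R, c3 t x) - (1 / 3) * ∫ x in (-R)..R, dd t x := by
      rw [← intervalIntegral.integral_const_mul, ← intervalIntegral.integral_const_mul,
        ← intervalIntegral.integral_add i1 (i3.const_mul _),
        ← intervalIntegral.integral_sub (i1.add (i3.const_mul _)) (id'.const_mul _)]
      apply intervalIntegral.integral_congr
      intro x _
      exact key t x
    rw [e9]
    have := hc1i t
    have := hc3i t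
    linarith
  have mddi : Measurable (fun t => ∫ x in (-R)..R, dd t x) := meas_inner mdd (-R) R
  have bddi : ∀ t, |∫ x in (-R)..R, dd t x| ≤ 3 / ε * |R - -R| := fun t => abs_inner_le (bdd t) _ _
  have hT1 : ∫ t in (0:ℝ)..T, ∫ x in (-R)..R, g0 t x ≤
      ∫ t in (0:ℝ)..T, ((2 * R + (1 / 3) * (2 * R)) - (1 / 3) * ∫ x in (-R)..R, dd t x) := by
    apply intervalIntegral.integral_mono_on hT.le
    · exact ii_of_bdd (meas_inner mg0 (-R) R) (fun t => abs_inner_le (bg0 t) _ _) _ _
    · exact intervalIntegrable_const.sub ((ii_of_bdd mddi bddi _ _).const_mul _)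
    · intro t _
      exact hsplit t
  rw [intervalIntegral.integral_sub intervalIntegrable_const
    ((ii_of_bdd mddi bddi _ _).const_mul _), intervalIntegral.integral_const_mul,
    intervalIntegral.integral_const, sub_zero, smul_eq_mul] at hT1
  -- comparison with the cube of the difference
  have hcube : ∫ t in (0:ℝ)..T, ∫ x in (-B)..B, |u t (x + ε) - u t x| ^ 3 ≤
      ∫ t in (0:ℝ)..T, ε * ∫ x in (-R)..R, dd t x := by
    have mcu : Measurable (Function.uncurry fun t x => |u t (x + ε) - u t x| ^ 3) :=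
      ((msh mu ε).sub mu).abs.pow_const 3
    have bcu : ∀ t x, |(|u t (x + ε) - u t x| ^ 3)| ≤ 1 := by
      intro t x
      rw [abs_of_nonneg (by positivity)]
      exact pow_le_one₀ (abs_nonneg _) (hdiff (h01 _ _) (h01 _ _))
    apply intervalIntegral.integral_mono_on hT.le
    · exact ii_of_bdd (meas_inner mcu (-B) B) (fun t => abs_inner_le (bcu t) _ _) _ _
    · exact (ii_of_bdd mddi bddi _ _).const_mul _
    · intro t _
      have hBB : -B ≤ B := by linarith
      have hdd0 : ∀ x, 0 ≤ dd t x := by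
        intro x
        simp only [hdd]
        have := (h01 t x).1
        have := (h01 t (x + ε)).1
        have := hc0 x
        positivity
      calc ∫ x in (-B)..B, |u t (x + ε) - u t x| ^ 3 ≤ ∫ x in (-B)..B, ε * dd t x := by
            apply intervalIntegral.integral_mono_on hBB
            · exact ii_of_bdd (mcu.comp measurable_prodMk_left) (bcu t) _ _
            · exact (ii_of_bdd (mdd.comp measurable_prodMk_left) (bdd t) _ _).const_mul _
            · intro x hx
              simp only [hdd]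
              rw [chi_one (abs_le.2 hx)]
              have e10 : ε * ((u t (x + ε) - u t x) ^ 2 * (u t (x + ε) + 2 * u t x) / ε * 1) =
                  |u t (x + ε) - u t x| ^ 2 * (u t (x + ε) + 2 * u t x) := by
                rw [sq_abs]
                field_simp
              rw [e10, pow_succ]
              gcongr
              have h5 := h01 t x
              have h6 := h01 t (x + ε)
              rw [abs_le]
              constructor <;> linarith [h5.1, h6.1]
        _ = ε * ∫ x in (-B)..B, dd t x := intervalIntegral.integral_const_mul _ _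
        _ ≤ ε * ∫ x in (-R)..R, dd t x := by
            gcongr
            apply intervalIntegral.integral_mono_interval (by linarith) hBB (by linarith)
            · exact ae_of_all _ fun x => hdd0 x
            · exact ii_of_bdd (mdd.comp measurable_prodMk_left) (bdd t) _ _
  rw [intervalIntegral.integral_const_mul] at hcube
  set I : ℝ := ∫ t in (0:ℝ)..T, ∫ x in (-R)..R, dd t x with hI
  have hI1 : I ≤ 3 * (2 * R + T * (2 * R) + T * (2 * R)) := by
    have : T * (2 * R + 1 / 3 * (2 * R)) ≤ T * (2 * R) + T * (2 * R) := by nlinarith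
    linarith
  calc ∫ t in (0:ℝ)..T, ∫ x in (-B)..B, |u t (x + ε) - u t x| ^ 3 ≤ ε * I := hcube
    _ ≤ ε * (3 * (2 * R + T * (2 * R) + T * (2 * R))) := by gcongr
    _ = _ := by ring

end Pool.Agent.W749.TF
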