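import Pool.Agent.W807.TF.Tools

set_option autoImplicit false

open MeasureTheory Set Filter Topology

namespace Pool.Agent.W749.TF
open Pool.Agent.W807.TF

theorem lipW {f : ℝ → ℝ} {K : ℝ} (h : ∀ x y, |f x - f y| ≤ K * |x - y|) :
    LipschitzWith (Real.toNNReal |K|) f := by
  apply LipschitzWith.of_dist_le_mul
  intro x y
  rw [Real.dist_eq, Real.dist_eq, Real.coe_toNNReal _ (abs_nonneg K)]
  exact (h x y).trans (mul_le_mul_of_nonneg_right (le_abs_self K) (abs_nonneg _))

theorem lip_ac {f : ℝ → ℝ} {K : ℝ} (h : ∀ x y, |f x - f y| ≤ K * |x - y|) (a b : ℝ) :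
    AbsolutelyContinuousOnInterval f a b :=
  ((lipW h).lipschitzOnWith (s := uIcc a b)).absolutelyContinuousOnInterval

theorem lip_ae {f : ℝ → ℝ} {K : ℝ} (h : ∀ x y, |f x - f y| ≤ K * |x - y|) :
    ∀ᵐ x : ℝ, DifferentiableAt ℝ f x := (lipW h).ae_differentiableAt_real

theorem ae_shift {P : ℝ → Prop} (h : ∀ᵐ x : ℝ, P x) (δ : ℝ) : ∀ᵐ x : ℝ, P (x + δ) :=
  (measurePreserving_add_right volume δ).quasiMeasurePreserving.ae h

theorem loc_int {f : ℝ → ℝ} (hf : Measurable f) {M : ℝ} (hb : ∀ x, |f x| ≤ M) :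
    LocallyIntegrable f volume := by
  refine (locallyIntegrable_const (M:ℝ)).mono hf.aestronglyMeasurable ?_
  exact ae_of_all _ fun x => by
    rw [Real.norm_eq_abs, Real.norm_eq_abs]
    exact (hb x).trans (le_abs_self M)

/-- the time derivative of the difference quotient -/
theorem time_deriv {ub : ℝ → ℝ} {ε : ℝ} {u U : ℝ → ℝ → ℝ} (h : NL ub ε u U) {δ : ℝ} (hδ : 0 < δ) :
    ∀ᵐ x : ℝ, ∀ᵐ t ∂(volume.restrict (Ioi (0:ℝ))),
      HasDerivAt (fun r => dq δ U r x)
        (-((u t (x + δ) * (1 - dq ε U t (x + δ)) - u t x * (1 - dq ε U t x)) / δ)) t := by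
  filter_upwards [h.pot.dt, ae_shift h.pot.dt δ] with x hx hxδ
  have hF := h.flux01
  have h1 := _root_.LocallyIntegrable.ae_hasDerivAt_integral
    (loc_int (hF.meas_t x) (fun t => hF.abs_le t x))
  have h2 := _root_.LocallyIntegrable.ae_hasDerivAt_integral
    (loc_int (hF.meas_t (x + δ)) (fun t => hF.abs_le t (x + δ)))
  filter_upwards [ae_restrict_of_ae h1, ae_restrict_of_ae h2, ae_restrict_mem measurableSet_Ioi]
    with t ht1 ht2 ht0
  have h3 := ((ht2 0).sub (ht1 0)).neg.div_const δ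
  have h4 : HasDerivAt (fun r => (U 0 (x + δ) - U 0 x) / δ + (-((∫ s in (0:ℝ)..r, u s (x + δ) *
      (1 - dq ε U s (x + δ))) - ∫ s in (0:ℝ)..r, u s x * (1 - dq ε U s x))) / δ)
      (-((u t (x + δ) * (1 - dq ε U t (x + δ)) - u t x * (1 - dq ε U t x))) / δ) t :=
    h3.const_add _
  have h5 : HasDerivAt (fun r => dq δ U r x)
      (-((u t (x + δ) * (1 - dq ε U t (x + δ)) - u t x * (1 - dq ε U t x))) / δ) t := by
    apply h4.congr_of_eventuallyEq
    filter_upwards [Ioi_mem_nhds ht0] with r hr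
    have hr0 : (0:ℝ) ≤ r := le_of_lt hr
    unfold dq
    have e1 := hx r hr0
    have e2 := hxδ r hr0
    unfold dq at e1 e2
    rw [e1, e2]
    ring
  rw [← neg_div]
  exact h5

/-- the space derivative of the potential -/
theorem space_deriv {ub : ℝ → ℝ} {ε : ℝ} {u U : ℝ → ℝ → ℝ} (h : NL ub ε u U) :
    ∀ᵐ t ∂(volume.restrict (Ioi (0:ℝ))), ∀ᵐ x : ℝ, HasDerivAt (fun y => U t y) (u t x) x := by
  filter_upwards [h.pot.ae_deriv h.u01] with t ht
  have h1 : ∀ᵐ x : ℝ, DifferentiableAt ℝ (fun y => U t y) x :=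
    lip_ae (K := 1) fun x y => by rw [one_mul]; exact h.pot.lip_x t x y
  filter_upwards [ht, h1] with x hx1 hx2
  rw [← hx1]
  exact hx2.hasDerivAt

/-- derivative of the difference quotient in space -/
theorem dq_space {U : ℝ → ℝ → ℝ} {t x δ a b : ℝ} (h1 : HasDerivAt (fun y => U t y) a x)
    (h2 : HasDerivAt (fun y => U t y) b (x + δ)) :
    HasDerivAt (fun y => dq δ U t y) ((b - a) / δ) x := by
  unfold dq
  exact ((h2.comp_add_const x δ).sub h1).div_const δ

theorem dq_comm {U : ℝ → ℝ → ℝ} {t x δ ε : ℝ} (hδ : 0 < δ) (hε : 0 < ε) :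
    (dq ε U t (x + δ) - dq ε U t x) / δ = (dq δ U t (x + ε) - dq δ U t x) / ε := by
  unfold dq
  rw [show x + δ + ε = x + ε + δ by ring]
  field_simp
  ring

section TestFn

variable {M L : ℝ} {φ : ℝ → ℝ → ℝ}

theorem TF_L (h : TestFn M L φ) : 0 ≤ L := by
  have := h.lip 0 1 0 0
  simp only [zero_sub, abs_neg, abs_one, sub_self, abs_zero, add_zero, mul_one] at this
  exact (abs_nonneg _).trans this

theorem TF_lip_t (h : TestFn M L φ) (x : ℝ) : ∀ s t, |φ s x - φ t x| ≤ L * |s - t| := fun s t => by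
  have := h.lip s t x x
  simpa using this

theorem TF_lip_x (h : TestFn M L φ) (t : ℝ) : ∀ x y, |φ t x - φ t y| ≤ L * |x - y| := fun x y => by
  have := h.lip t t x y
  simpa using this

theorem TF_zero (h : TestFn M L φ) {t x : ℝ} (hx : |M| + 1 ≤ |x|) : φ t x = 0 :=
  h.supp t x (by linarith [le_abs_self M])

theorem TF_bdd (h : TestFn M L φ) (t x : ℝ) : |φ t x| ≤ L * (2 * (|M| + 1)) := by
  have hL := TF_L h
  have hM := abs_nonneg M
  by_cases hx : |M| + 1 ≤ |x|
  · rw [TF_zero h hx, abs_zero]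
    positivity
  · push Not at hx
    have h1 := TF_lip_x h t x (|M| + 1)
    rw [TF_zero h (x := |M| + 1) (le_abs_self _), sub_zero] at h1
    refine h1.trans ?_
    gcongr
    have h2 := abs_sub x (|M| + 1)
    rw [abs_of_nonneg (show 0 ≤ |M| + 1 by linarith)] at h2
    linarith

theorem TF_dt (h : TestFn M L φ) {t x : ℝ} (hx : |M| + 1 ≤ |x|) :
    deriv (fun r => φ r x) t = 0 := by
  have : (fun r => φ r x) = fun _ => 0 := by
    funext r
    exact TF_zero h hx
  rw [this]
  simp

theorem TF_dx (h : TestFn M L φ) {t x : ℝ} (hx : |M| + 1 ≤ |x|) :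
    deriv (fun y => φ t y) x = 0 := by
  have h1 : (fun y => φ t y) =ᶠ[𝓝 x] fun _ => 0 := by
    have hopen : IsOpen {y : ℝ | |M| < |y|} := isOpen_lt continuous_const continuous_abs
    filter_upwards [hopen.mem_nhds (show |M| < |x| by linarith)] with y hy
    exact h.supp t y ((le_abs_self M).trans (le_of_lt hy))
  rw [h1.deriv_eq]
  simp

theorem TF_dt_bdd (h : TestFn M L φ) (t x : ℝ) : |deriv (fun r => φ r x) t| ≤ L := by
  have := norm_deriv_le_of_lipschitz (lipW (TF_lip_t h x)) (x₀ := t)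
  rw [Real.norm_eq_abs, Real.coe_toNNReal _ (abs_nonneg L), abs_of_nonneg (TF_L h)] at this
  exact this

theorem TF_dx_bdd (h : TestFn M L φ) (t x : ℝ) : |deriv (fun y => φ t y) x| ≤ L := by
  have := norm_deriv_le_of_lipschitz (lipW (TF_lip_x h t)) (x₀ := x)
  rw [Real.norm_eq_abs, Real.coe_toNNReal _ (abs_nonneg L), abs_of_nonneg (TF_L h)] at this
  exact this

theorem TF_dt_meas (h : TestFn M L φ) :
    Measurable (Function.uncurry fun t x => deriv (fun r => φ r x) t) := by
  have h1 : Continuous (Function.uncurry fun x t => φ t x) := h.cont.comp continuous_swap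
  have h2 := measurable_deriv_with_param h1
  exact h2.comp measurable_swap

theorem TF_dx_meas (h : TestFn M L φ) :
    Measurable (Function.uncurry fun t x => deriv (fun y => φ t y) x) :=
  measurable_deriv_with_param h.cont

end TestFn

/-- integral of a function vanishing for large `|x|` -/
theorem int_eq {g : ℝ → ℝ} {R : ℝ} (hg : ∀ x, R ≤ |x| → g x = 0) :
    ∫ x, g x = ∫ x in (-R)..R, g x := by
  symm
  apply intervalIntegral.integral_eq_integral_of_support_subset
  intro x hx
  have h1 : |x| < R := by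
    by_contra hcon
    exact hx (hg x (not_lt.1 hcon))
  rw [abs_lt] at h1
  exact ⟨h1.1, h1.2.le⟩

theorem taskId : TaskId := by
  intro ub ε u U h η η' Lη hη s T M L φ hs hsT hφ δ hδ
  have hε := h.eps
  have hF := h.flux01
  set F : ℝ → ℝ → ℝ := fun t x => u t x * (1 - dq ε U t x) with hFdef
  set f : ℝ → ℝ → ℝ := fun t x => dq δ U t x with hf
  set R : ℝ := |M| + 1 with hR
  have hR0 : 0 < R := by positivity
  have hL0 := TF_L hφ
  have hLη : 0 ≤ Lη := by
    have := hη.bd' 0 ⟨le_rfl, zero_le_one⟩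
    exact (abs_nonneg _).trans this
  have hfm : ∀ t x, f t x ∈ Icc (0:ℝ) 1 := fun t x => h.pot.dq_mem hδ t x
  have hfcont : Continuous (Function.uncurry f) := h.pot.dq_cont
  -- bounds
  obtain ⟨Cη, hCη⟩ : ∃ C : ℝ, ∀ l ∈ Icc (0:ℝ) 1, |η l| ≤ C := by
    obtain ⟨C, hC⟩ := isCompact_Icc.exists_bound_of_continuousOn (s := Icc (0:ℝ) 1) hη.cont.continuousOn
    exact ⟨C, fun l hl => hC l hl⟩
  have hEt : ∀ x, ∀ a b, |η (f a x) - η (f b x)| ≤ (Lη * (2 / δ)) * |a - b| := by
    intro x a b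
    have h1 := h.pot.dq_lip hδ a b x x
    rw [sub_self, abs_zero, add_zero] at h1
    calc |η (f a x) - η (f b x)| ≤ Lη * |f a x - f b x| := hη.lip _ (hfm a x) _ (hfm b x)
      _ ≤ Lη * ((2 / δ) * |a - b|) := by gcongr
      _ = _ := by ring
  have hEx : ∀ t, ∀ a b, |η (f t a) - η (f t b)| ≤ (Lη * (2 / δ)) * |a - b| := by
    intro t a b
    have h1 := h.pot.dq_lip hδ t t a b
    rw [sub_self, abs_zero, zero_add] at h1
    calc |η (f t a) - η (f t b)| ≤ Lη * |f t a - f t b| := hη.lip _ (hfm t a) _ (hfm t b)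
      _ ≤ Lη * ((2 / δ) * |a - b|) := by gcongr
      _ = _ := by ring
  -- the first integrand
  set G1 : ℝ → ℝ → ℝ := fun t x => η (f t x) * deriv (fun r => φ r x) t -
    η' (f t x) * ((F t (x + δ) - F t x) / δ) * φ t x with hG1
  set G2 : ℝ → ℝ → ℝ := fun t x => η (dq δ U t x) * deriv (fun r => φ r x) t
            + η (dq δ U t x) * ((1 - dq ε U t x) * deriv (fun y => φ t y) x
                - (u t (x + ε) - u t x) / ε * φ t x)
            + η' (dq δ U t x) * ((dq δ U t (x + ε) - dq δ U t x) / ε) * u t (x + δ) * φ t x with hG2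
  have hFsh : Measurable (Function.uncurry fun t x => F t (x + δ)) := by
    have : Measurable (fun p : ℝ × ℝ => ((p.1, p.2 + δ) : ℝ × ℝ)) := by fun_prop
    exact hF.1.comp this
  have hG1m : Measurable (Function.uncurry G1) := by
    have h1 : Measurable (Function.uncurry fun t x => η (f t x)) :=
      (hη.cont.comp hfcont).measurable
    have h2 : Measurable (Function.uncurry fun t x => η' (f t x)) :=
      hη.meas'.comp hfcont.measurable
    exact (h1.mul (TF_dt_meas hφ)).sub
      ((h2.mul ((hFsh.sub hF.1).div_const δ)).mul hφ.cont.measurable)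
  have hG1b : ∀ t x, |G1 t x| ≤ Cη * L + Lη * (2 / δ) * (L * (2 * R)) := by
    intro t x
    have h1 := hCη _ (hfm t x)
    have h2 := TF_dt_bdd hφ t x
    have h3 := hη.bd' _ (hfm t x)
    have h4 : |(F t (x + δ) - F t x) / δ| ≤ 2 / δ := by
      rw [abs_div, abs_of_pos hδ]
      gcongr
      calc |F t (x + δ) - F t x| ≤ |F t (x + δ)| + |F t x| := abs_sub _ _
        _ ≤ 1 + 1 := add_le_add (hF.abs_le _ _) (hF.abs_le _ _)
        _ = 2 := by norm_num
    have h5 := TF_bdd hφ t x
    have hCη0 : 0 ≤ Cη := (abs_nonneg _).trans h1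
    calc |G1 t x| ≤ |η (f t x) * deriv (fun r => φ r x) t| +
          |η' (f t x) * ((F t (x + δ) - F t x) / δ) * φ t x| := abs_sub _ _
      _ = |η (f t x)| * |deriv (fun r => φ r x) t| +
          |η' (f t x)| * |(F t (x + δ) - F t x) / δ| * |φ t x| := by
          rw [abs_mul, abs_mul, abs_mul]
      _ ≤ Cη * L + Lη * (2 / δ) * (L * (2 * R)) := by gcongr
  -- (I)
  have hI : ∀ᵐ x : ℝ, ∫ t in s..T, G1 t x = η (f T x) * φ T x - η (f s x) * φ s x := by
    filter_upwards [time_deriv h hδ] with x hx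
    have hac1 := lip_ac (hEt x) s T
    have hac2 := lip_ac (TF_lip_t hφ x) s T
    rw [← (hac1.fun_mul hac2).integral_deriv_eq_sub]
    apply intervalIntegral.integral_congr_ae
    have hx' := (ae_restrict_iff' measurableSet_Ioi).1 hx
    filter_upwards [hx', lip_ae (hEt x), lip_ae (TF_lip_t hφ x)] with t ht1 ht2 ht3 ht4
    rw [uIoc_of_le hsT] at ht4
    have ht0 : t ∈ Ioi (0:ℝ) := lt_of_le_of_lt hs ht4.1
    have hd := ht1 ht0
    have hch := hη.chain (fun r => f r x) t _ _ hd ht2.hasDerivAt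
    have hprod := (ht2.hasDerivAt.fun_mul ht3.hasDerivAt).deriv
    rw [hprod, hch]
    simp only [hG1, hf, hFdef]
    ring
  -- (II)
  have hII : ∀ᵐ t ∂(volume.restrict (Ioi (0:ℝ))),
      ∫ x in (-R)..R, G1 t x = ∫ x in (-R)..R, G2 t x := by
    filter_upwards [space_deriv h] with t ht
    have hb : ∀ a b, |(1 - dq ε U t a) - (1 - dq ε U t b)| ≤ (2 / ε) * |a - b| := by
      intro a b
      have h1 := h.pot.dq_lip hε t t b a
      rw [sub_self, abs_zero, zero_add, abs_sub_comm b a] at h1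
      calc |(1 - dq ε U t a) - (1 - dq ε U t b)| = |dq ε U t b - dq ε U t a| := by
            congr 1; ring
        _ ≤ _ := h1
    have hac : AbsolutelyContinuousOnInterval
        (fun x => η (f t x) * ((1 - dq ε U t x) * φ t x)) (-R) R :=
      (lip_ac (hEx t) _ _).fun_mul ((lip_ac hb _ _).fun_mul (lip_ac (TF_lip_x hφ t) _ _))
    have hzero : ∫ x in (-R)..R, deriv (fun x => η (f t x) * ((1 - dq ε U t x) * φ t x)) x = 0 := by
      rw [hac.integral_deriv_eq_sub, TF_zero hφ (x := R) (by rw [← hR]; exact le_abs_self R),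
        TF_zero hφ (x := -R) (by rw [← hR, abs_neg]; exact le_abs_self R)]
      ring
    have hG1i : IntervalIntegrable (G1 t) volume (-R) R :=
      ii_of_bdd (hG1m.comp measurable_prodMk_left) (hG1b t) _ _
    have hsum : ∫ x in (-R)..R, (G1 t x + deriv (fun x => η (f t x) * ((1 - dq ε U t x) * φ t x)) x)
        = ∫ x in (-R)..R, G1 t x := by
      rw [intervalIntegral.integral_add hG1i hac.intervalIntegrable_deriv, hzero, add_zero]
    rw [← hsum]
    apply intervalIntegral.integral_congr_ae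
    filter_upwards [ht, ae_shift ht δ, ae_shift ht ε, lip_ae (hEx t), lip_ae (TF_lip_x hφ t)]
      with x hx hxδ hxε hxE hxφ _
    have hdf := dq_space (t := t) hx hxδ
    have hda := dq_space (t := t) hx hxε
    have hch := hη.chain (fun y => f t y) x _ _ hdf hxE.hasDerivAt
    have hdb : HasDerivAt (fun y => 1 - dq ε U t y) (-((u t (x + ε) - u t x) / ε)) x :=
      hda.const_sub 1
    have hprod := (hxE.hasDerivAt.fun_mul (hdb.fun_mul hxφ.hasDerivAt)).deriv
    rw [hprod, hch]
    have hcomm := dq_comm (U := U) (t := t) (x := x) hδ hε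
    simp only [hG1, hG2, hf, hFdef]
    rw [← hcomm]
    field_simp
    ring
  -- conclusion
  have e1 : (∫ x : ℝ, η (dq δ U T x) * φ T x) = ∫ x in (-R)..R, η (f T x) * φ T x :=
    int_eq fun x hx => by rw [TF_zero hφ hx, mul_zero]
  have e2 : (∫ x : ℝ, η (dq δ U s x) * φ s x) = ∫ x in (-R)..R, η (f s x) * φ s x :=
    int_eq fun x hx => by rw [TF_zero hφ hx, mul_zero]
  have e3 : ∀ t, (∫ x : ℝ, G2 t x) = ∫ x in (-R)..R, G2 t x := fun t =>
    int_eq fun x hx => by
      simp only [hG2]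
      rw [TF_zero hφ hx, TF_dt hφ hx, TF_dx hφ hx]
      ring
  have hii : ∀ t, IntervalIntegrable (fun x => η (f t x) * φ t x) volume (-R) R := by
    intro t
    apply Continuous.intervalIntegrable
    have h1 : Continuous (fun x => f t x) := hfcont.comp (Continuous.prodMk_right t)
    have h2 : Continuous (fun x => φ t x) := hφ.cont.comp (Continuous.prodMk_right t)
    exact (hη.cont.comp h1).mul h2
  rw [e1, e2, ← intervalIntegral.integral_sub (hii T) (hii s)]
  have e4 : ∫ x in (-R)..R, (η (f T x) * φ T x - η (f s x) * φ s x) =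
      ∫ x in (-R)..R, ∫ t in s..T, G1 t x := by
    apply intervalIntegral.integral_congr_ae
    filter_upwards [hI] with x hx _
    exact hx.symm
  rw [e4, ← swap_ii hG1m hG1b hsT (by linarith)]
  apply intervalIntegral.integral_congr_ae
  have hII' := (ae_restrict_iff' measurableSet_Ioi).1 hII
  filter_upwards [hII'] with t ht ht2
  rw [uIoc_of_le hsT] at ht2
  rw [ht (lt_of_le_of_lt hs ht2.1), ← e3 t]

end Pool.Agent.W749.TF
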