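import Pool.Agent.W749.TF.Sk

set_option autoImplicit false

open MeasureTheory Set Filter Topology

namespace Pool.Agent.W749.TF
open Pool.Agent.W807.TF

/-- the difference of the translate and the difference quotient tends to zero -/
theorem small_lim {ub : ℝ → ℝ} {ε : ℝ} {u U : ℝ → ℝ → ℝ} (h : NL ub ε u U) {t : ℝ}
    (ht : ∀ᵐ x : ℝ, HasDerivAt (fun y => U t y) (u t x) x) {R : ℝ} (hR : 0 ≤ R) :
    Tendsto (fun δ => ∫ x in (-R)..R, |u t (x + δ) - dq δ U t x|) (𝓝[>] 0) (𝓝 0) := by
  have h1 := (transl (h.u01.meas_x t) (h.u01.abs_le t) hR).mono_left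
    (nhdsWithin_le_nhds (s := Ioi (0:ℝ)))
  have h2 : Tendsto (fun δ => ∫ x in (-R)..R, |u t x - dq δ U t x|) (𝓝[>] 0) (𝓝 0) := by
    have h3 := intervalIntegral.tendsto_integral_filter_of_dominated_convergence
      (μ := volume) (a := -R) (b := R) (l := 𝓝[>] (0:ℝ)) (F := fun δ x => |u t x - dq δ U t x|)
      (f := fun _ => (0:ℝ)) (fun _ => 1)
      (Eventually.of_forall fun δ => by
        have h4 : Continuous (fun x => dq δ U t x) := h.pot.dq_cont.comp (Continuous.prodMk_right t)
        exact ((h.u01.meas_x t).sub h4.measurable).abs.aestronglyMeasurable)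
      (by
        filter_upwards [self_mem_nhdsWithin] with δ hδ
        refine ae_of_all _ fun x _ => ?_
        rw [Real.norm_eq_abs, abs_abs, abs_le]
        have h4 := h.u01.2 t x
        have h5 := h.pot.dq_mem hδ t x
        constructor <;> linarith [h4.1, h4.2, h5.1, h5.2])
      intervalIntegrable_const
      (by
        filter_upwards [ht] with x hx _
        have h4 := (tendsto_const_nhds (x := u t x)).sub (dq_tendsto hx)
        rw [sub_self] at h4
        have h5 := h4.abs
        rwa [abs_zero] at h5)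
    simpa using h3
  have h3 := h1.add h2
  rw [add_zero] at h3
  apply squeeze_zero' _ _ h3
  · refine Eventually.of_forall fun δ => ?_
    exact intervalIntegral.integral_nonneg (by linarith) fun x _ => abs_nonneg _
  · filter_upwards [self_mem_nhdsWithin] with δ hδ
    have hm1 : Measurable (fun x => u t (x + δ)) := (h.u01.meas_x t).comp (measurable_id.add_const δ)
    have hm2 : Measurable (fun x => dq δ U t x) :=
      (h.pot.dq_cont.comp (Continuous.prodMk_right t)).measurable
    have hb : ∀ a b : ℝ, 0 ≤ a → a ≤ 1 → 0 ≤ b → b ≤ 1 → |a - b| ≤ 1 := by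
      intro a b h1 h2 h3 h4
      rw [abs_le]
      constructor <;> linarith
    have i1 : IntervalIntegrable (fun x => |u t (x + δ) - u t x|) volume (-R) R :=
      ii_of_bdd (M := 1) (hm1.sub (h.u01.meas_x t)).abs (fun x => by
        rw [abs_abs]
        exact hb _ _ (h.u01.2 t _).1 (h.u01.2 t _).2 (h.u01.2 t _).1 (h.u01.2 t _).2) _ _
    have i2 : IntervalIntegrable (fun x => |u t x - dq δ U t x|) volume (-R) R :=
      ii_of_bdd (M := 1) ((h.u01.meas_x t).sub hm2).abs (fun x => by
        rw [abs_abs]
        exact hb _ _ (h.u01.2 t _).1 (h.u01.2 t _).2 (h.pot.dq_mem hδ t x).1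
          (h.pot.dq_mem hδ t x).2) _ _
    have i3 : IntervalIntegrable (fun x => |u t (x + δ) - dq δ U t x|) volume (-R) R :=
      ii_of_bdd (M := 1) (hm1.sub hm2).abs (fun x => by
        rw [abs_abs]
        exact hb _ _ (h.u01.2 t _).1 (h.u01.2 t _).2 (h.pot.dq_mem hδ t x).1
          (h.pot.dq_mem hδ t x).2) _ _
    rw [← intervalIntegral.integral_add i1 i2]
    apply intervalIntegral.integral_mono_on (by linarith) i3 (i1.add i2)
    intro x _
    exact abs_sub_le _ _ _

theorem taskSk (hId : TaskId) : TaskSk := by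
  intro ub ε u U h b k hk0 hk1 s T M L φ hs hsT hφ hφ0
  have hk : k ∈ Icc (0:ℝ) 1 := ⟨hk0, hk1⟩
  have hε := h.eps
  have hL0 := TF_L hφ
  set R : ℝ := |M| + 1 + ε with hR
  have hM0 := abs_nonneg M
  have hR0 : 0 < R := by positivity
  have hRR : -R ≤ R := by linarith
  have hRM : |M| + 1 ≤ R := by linarith
  set a : ℝ → ℝ → ℝ := fun t x => dq ε U t x with ha
  set Cφ : ℝ := L * (2 * (|M| + 1)) with hCφ
  have hCφ0 : 0 ≤ Cφ := by positivity
  -- the integrands
  set g : ℝ → ℝ → ℝ → ℝ := fun δ t x =>
    pm b k (dq δ U t x) * deriv (fun r => φ r x) t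
      + pm b k (dq δ U t x) * ((1 - dq ε U t x) * deriv (fun y => φ t y) x
        - (u t (x + ε) - u t x) / ε * φ t x)
      + (k / ε * (pm b k (dq δ U t (x + ε)) - pm b k (dq δ U t x)) +
        pm b k (dq δ U t x) * ((dq δ U t (x + ε) - dq δ U t x) / ε)) * φ t x with hg
  set e : ℝ → ℝ → ℝ → ℝ := fun δ t x => 1 / ε * |u t (x + δ) - dq δ U t x| * φ t x with he
  set g0 : ℝ → ℝ → ℝ := fun t x =>
    pm b k (u t x) * deriv (fun r => φ r x) t
      + pm b k (u t x) * ((1 - dq ε U t x) * deriv (fun y => φ t y) x
        - (u t (x + ε) - u t x) / ε * φ t x)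
      + (k / ε * (pm b k (u t (x + ε)) - pm b k (u t x)) +
        pm b k (u t x) * ((u t (x + ε) - u t x) / ε)) * φ t x with hg0
  -- measurability
  have msh : ∀ {v : ℝ → ℝ → ℝ}, Measurable (Function.uncurry v) → ∀ c : ℝ,
      Measurable (Function.uncurry fun t x => v t (x + c)) := by
    intro v hv c
    have : Measurable (fun p : ℝ × ℝ => ((p.1, p.2 + c) : ℝ × ℝ)) := by fun_prop
    exact hv.comp this
  have mu := h.u01.1
  have mdq : ∀ δ, Measurable (Function.uncurry (dq δ U)) := fun δ => h.pot.dq_cont.measurable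
  have mpm : ∀ {v : ℝ → ℝ → ℝ}, Measurable (Function.uncurry v) →
      Measurable (Function.uncurry fun t x => pm b k (v t x)) := fun hv =>
    (pm_cont b k).measurable.comp hv
  have mφ : Measurable (Function.uncurry φ) := hφ.cont.measurable
  have mφt := TF_dt_meas hφ
  have mφx := TF_dx_meas hφ
  have mg : ∀ δ, Measurable (Function.uncurry (g δ)) := by
    intro δ
    have m1 := mpm (mdq δ)
    have m2 := mpm (msh (mdq δ) ε)
    have m3 := msh (mdq δ) ε
    exact ((m1.mul mφt).add (m1.mul (((measurable_const.sub (mdq ε)).mul mφx).sub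
      ((((msh mu ε).sub mu).div_const ε).mul mφ)))).add
      (((measurable_const.mul (m2.sub m1)).add (m1.mul ((m3.sub (mdq δ)).div_const ε))).mul mφ)
  have mg0 : Measurable (Function.uncurry g0) := by
    have m1 := mpm mu
    have m2 := mpm (msh mu ε)
    exact ((m1.mul mφt).add (m1.mul (((measurable_const.sub (mdq ε)).mul mφx).sub
      ((((msh mu ε).sub mu).div_const ε).mul mφ)))).add
      (((measurable_const.mul (m2.sub m1)).add (m1.mul (((msh mu ε).sub mu).div_const ε))).mul mφ)
  have me : ∀ δ, Measurable (Function.uncurry (e δ)) := by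
    intro δ
    exact (measurable_const.mul ((msh mu δ).sub (mdq δ)).abs).mul mφ
  have mge : ∀ δ, Measurable (Function.uncurry fun t x => g δ t x + e δ t x) := fun δ =>
    (mg δ).add (me δ)
  -- bounds
  have hdiff : ∀ {p q : ℝ}, p ∈ Icc (0:ℝ) 1 → q ∈ Icc (0:ℝ) 1 → |p - q| ≤ 1 := by
    intro p q hp hq
    rw [abs_le]
    constructor <;> linarith [hp.1, hp.2, hq.1, hq.2]
  have hpm : ∀ {l : ℝ}, l ∈ Icc (0:ℝ) 1 → pm b k l ∈ Icc (0:ℝ) 1 := fun hl =>
    ⟨pm_nonneg _ _ _, pm_le_one b hk hl⟩
  have bnd : ∀ (l m : ℝ), l ∈ Icc (0:ℝ) 1 → m ∈ Icc (0:ℝ) 1 → ∀ t x,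
      |pm b k l * deriv (fun r => φ r x) t
      + pm b k l * ((1 - dq ε U t x) * deriv (fun y => φ t y) x
        - (u t (x + ε) - u t x) / ε * φ t x)
      + (k / ε * (pm b k m - pm b k l) + pm b k l * ((m - l) / ε)) * φ t x| ≤
      L + (L + 1 / ε * Cφ) + (1 / ε + 1 / ε) * Cφ := by
    intro l m hl hm t x
    have h1 := TF_dt_bdd hφ t x
    have h2 := TF_dx_bdd hφ t x
    have h3 := TF_bdd hφ t x
    have h4 := hpm hl
    have h5 := hpm hm
    have h6 : |(1 - dq ε U t x)| ≤ 1 := by
      have := h.pot.dq_mem hε t x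
      rw [abs_le]; constructor <;> linarith [this.1, this.2]
    have h7 : |(u t (x + ε) - u t x) / ε| ≤ 1 / ε := by
      rw [abs_div, abs_of_pos hε]
      gcongr
      exact hdiff (h.u01.2 _ _) (h.u01.2 _ _)
    have h8 : |(m - l) / ε| ≤ 1 / ε := by
      rw [abs_div, abs_of_pos hε]
      gcongr
      exact hdiff hm hl
    have h9 : |k / ε * (pm b k m - pm b k l)| ≤ 1 / ε := by
      rw [abs_mul, abs_div, abs_of_pos hε, abs_of_nonneg hk0]
      calc k / ε * |pm b k m - pm b k l| ≤ 1 / ε * 1 := by
            gcongr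
            exact hdiff h5 h4
        _ = 1 / ε := mul_one _
    have h10 : |pm b k l| ≤ 1 := by rw [abs_of_nonneg h4.1]; exact h4.2
    calc _ ≤ |pm b k l * deriv (fun r => φ r x) t| +
          |pm b k l * ((1 - dq ε U t x) * deriv (fun y => φ t y) x
            - (u t (x + ε) - u t x) / ε * φ t x)| +
          |(k / ε * (pm b k m - pm b k l) + pm b k l * ((m - l) / ε)) * φ t x| := by
          refine (abs_add_le _ _).trans ?_
          gcongr
          exact abs_add_le _ _
      _ ≤ 1 * L + 1 * (1 * L + 1 / ε * Cφ) + (1 / ε + 1 * (1 / ε)) * Cφ := by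
          rw [abs_mul, abs_mul, abs_mul]
          gcongr
          · refine (abs_sub _ _).trans ?_
            rw [abs_mul, abs_mul]
            gcongr
          · refine (abs_add_le _ _).trans ?_
            rw [abs_mul (pm b k l)]
            gcongr
      _ = _ := by ring
  set Cg : ℝ := L + (L + 1 / ε * Cφ) + (1 / ε + 1 / ε) * Cφ with hCg
  have bg : ∀ δ, 0 < δ → ∀ t x, |g δ t x| ≤ Cg := fun δ hδ t x =>
    bnd _ _ (h.pot.dq_mem hδ t x) (h.pot.dq_mem hδ t (x + ε)) t x
  have bg0 : ∀ t x, |g0 t x| ≤ Cg := fun t x => bnd _ _ (h.u01.2 t x) (h.u01.2 t (x + ε)) t x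
  have be : ∀ δ, 0 < δ → ∀ t x, |e δ t x| ≤ 1 / ε * Cφ := by
    intro δ hδ t x
    simp only [he]
    rw [abs_mul, abs_mul, abs_abs, abs_of_pos (show 0 < 1 / ε by positivity)]
    calc 1 / ε * |u t (x + δ) - dq δ U t x| * |φ t x| ≤ 1 / ε * 1 * Cφ := by
          gcongr
          · exact hdiff (h.u01.2 _ _) (h.pot.dq_mem hδ t x)
          · exact TF_bdd hφ t x
      _ = _ := by ring
  -- inner limits
  have hin1 : ∀ᵐ t ∂(volume.restrict (Ioi (0:ℝ))),
      Tendsto (fun δ => ∫ x in (-R)..R, g δ t x) (𝓝[>] 0) (𝓝 (∫ x in (-R)..R, g0 t x)) := by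
    filter_upwards [space_deriv h] with t ht
    apply intervalIntegral.tendsto_integral_filter_of_dominated_convergence (fun _ => Cg)
    · exact Eventually.of_forall fun δ =>
        ((mg δ).comp measurable_prodMk_left).aestronglyMeasurable
    · filter_upwards [self_mem_nhdsWithin] with δ hδ
      exact ae_of_all _ fun x _ => by rw [Real.norm_eq_abs]; exact bg δ hδ t x
    · exact intervalIntegrable_const
    · filter_upwards [ht, ae_shift ht ε] with x hx1 hx2 _
      have l1 := dq_tendsto hx1
      have l2 := dq_tendsto (t := t) (x := x + ε) hx2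
      have p1 := ((pm_cont b k).tendsto _).comp l1
      have p2 := ((pm_cont b k).tendsto _).comp l2
      exact ((p1.mul_const _).add (p1.mul_const _)).add
        (((((p2.sub p1)).const_mul _).add (p1.mul ((l2.sub l1).div_const ε))).mul_const _)
  have hin2 : ∀ᵐ t ∂(volume.restrict (Ioi (0:ℝ))),
      Tendsto (fun δ => ∫ x in (-R)..R, e δ t x) (𝓝[>] 0) (𝓝 0) := by
    filter_upwards [space_deriv h] with t ht
    have h1 := (small_lim h ht hR0.le).const_mul (1 / ε * Cφ)
    rw [mul_zero] at h1
    apply squeeze_zero' _ _ h1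
    · refine Eventually.of_forall fun δ => ?_
      apply intervalIntegral.integral_nonneg hRR
      intro x _
      exact mul_nonneg (mul_nonneg (by positivity) (abs_nonneg _)) (hφ0 t x)
    · filter_upwards [self_mem_nhdsWithin] with δ hδ
      rw [← intervalIntegral.integral_const_mul]
      apply intervalIntegral.integral_mono_on hRR
      · exact ii_of_bdd ((me δ).comp measurable_prodMk_left) (be δ hδ t) _ _
      · apply IntervalIntegrable.const_mul
        have hm1 : Measurable (fun x => u t (x + δ)) :=
          (h.u01.meas_x t).comp (measurable_id.add_const δ)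
        have hm2 : Measurable (fun x => dq δ U t x) :=
          (h.pot.dq_cont.comp (Continuous.prodMk_right t)).measurable
        exact ii_of_bdd (M := 1) (hm1.sub hm2).abs (fun x => by
          rw [abs_abs]
          exact hdiff (h.u01.2 t _) (h.pot.dq_mem hδ t x)) _ _
      · intro x _
        simp only [he]
        have h2 := (le_abs_self _).trans (TF_bdd hφ t x)
        have h3 : 0 ≤ 1 / ε * |u t (x + δ) - dq δ U t x| := by positivity
        calc 1 / ε * |u t (x + δ) - dq δ U t x| * φ t x ≤
              1 / ε * |u t (x + δ) - dq δ U t x| * Cφ := by gcongr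
          _ = _ := by ring
  -- outer limit
  have hout : Tendsto (fun δ => ∫ t in s..T, ∫ x in (-R)..R, (g δ t x + e δ t x)) (𝓝[>] 0)
      (𝓝 (∫ t in s..T, ∫ x in (-R)..R, g0 t x)) := by
    apply intervalIntegral.tendsto_integral_filter_of_dominated_convergence
      (fun _ => (Cg + 1 / ε * Cφ) * |R - -R|)
    · refine Eventually.of_forall fun δ => ?_
      exact (meas_inner (mge δ) (-R) R).aestronglyMeasurable
    · filter_upwards [self_mem_nhdsWithin] with δ hδ
      refine ae_of_all _ fun t _ => ?_
      rw [Real.norm_eq_abs]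
      exact abs_inner_le (fun x => (abs_add_le _ _).trans (add_le_add (bg δ hδ t x) (be δ hδ t x))) _ _
    · exact intervalIntegrable_const
    · have h1 := (ae_restrict_iff' measurableSet_Ioi).1 hin1
      have h2 := (ae_restrict_iff' measurableSet_Ioi).1 hin2
      filter_upwards [h1, h2] with t ht1 ht2 ht3
      rw [uIoc_of_le hsT] at ht3
      have ht0 : t ∈ Ioi (0:ℝ) := lt_of_le_of_lt hs ht3.1
      have h3 := (ht1 ht0).add (ht2 ht0)
      rw [add_zero] at h3
      refine h3.congr' ?_
      filter_upwards [self_mem_nhdsWithin] with δ hδ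
      symm
      exact intervalIntegral.integral_add (f := g δ t) (g := e δ t)
        (ii_of_bdd ((mg δ).comp measurable_prodMk_left) (bg δ hδ t) _ _)
        (ii_of_bdd ((me δ).comp measurable_prodMk_left) (be δ hδ t) _ _)
  -- the inequality before the limit
  have hineq : ∀ᶠ δ in 𝓝[>] (0:ℝ),
      (∫ x : ℝ, pm b k (dq δ U T x) * φ T x) - (∫ x : ℝ, pm b k (dq δ U s x) * φ s x) ≤
      ∫ t in s..T, ∫ x in (-R)..R, (g δ t x + e δ t x) := by
    filter_upwards [self_mem_nhdsWithin] with δ hδ
    have hδ' : 0 < δ := hδ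
    rw [hId ub ε u U h (pm b k) (pm' b k) 1 (pm_entPair b k) s T M L φ hs hsT hφ δ hδ]
    have e3 : ∀ t, (∫ x : ℝ,
          (pm b k (dq δ U t x) * deriv (fun r => φ r x) t
            + pm b k (dq δ U t x) * ((1 - dq ε U t x) * deriv (fun y => φ t y) x
                - (u t (x + ε) - u t x) / ε * φ t x)
            + pm' b k (dq δ U t x) * ((dq δ U t (x + ε) - dq δ U t x) / ε) * u t (x + δ) * φ t x)) =
        ∫ x in (-R)..R, (pm b k (dq δ U t x) * deriv (fun r => φ r x) t
            + pm b k (dq δ U t x) * ((1 - dq ε U t x) * deriv (fun y => φ t y) x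
                - (u t (x + ε) - u t x) / ε * φ t x)
            + pm' b k (dq δ U t x) * ((dq δ U t (x + ε) - dq δ U t x) / ε) * u t (x + δ) * φ t x) :=
      fun t => int_eq fun x hx => by
        have hx' : |M| + 1 ≤ |x| := by linarith
        rw [TF_zero hφ hx', TF_dt hφ hx', TF_dx hφ hx']
        ring
    simp only [e3]
    have mpm' : Measurable (Function.uncurry fun t x => pm' b k (dq δ U t x)) :=
      (pm_entPair b k).meas'.comp (mdq δ)
    have mG : Measurable (Function.uncurry fun t x => pm b k (dq δ U t x) * deriv (fun r => φ r x) t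
            + pm b k (dq δ U t x) * ((1 - dq ε U t x) * deriv (fun y => φ t y) x
                - (u t (x + ε) - u t x) / ε * φ t x)
            + pm' b k (dq δ U t x) * ((dq δ U t (x + ε) - dq δ U t x) / ε) * u t (x + δ) * φ t x) :=
      (((mpm (mdq δ)).mul mφt).add ((mpm (mdq δ)).mul (((measurable_const.sub (mdq ε)).mul mφx).sub
      ((((msh mu ε).sub mu).div_const ε).mul mφ)))).add
      (((mpm'.mul (((msh (mdq δ) ε).sub (mdq δ)).div_const ε)).mul (msh mu δ)).mul mφ)
    have bG : ∀ t x, |pm b k (dq δ U t x) * deriv (fun r => φ r x) t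
            + pm b k (dq δ U t x) * ((1 - dq ε U t x) * deriv (fun y => φ t y) x
                - (u t (x + ε) - u t x) / ε * φ t x)
            + pm' b k (dq δ U t x) * ((dq δ U t (x + ε) - dq δ U t x) / ε) * u t (x + δ) * φ t x| ≤
          L + (L + 1 / ε * Cφ) + 1 / ε * Cφ := by
      intro t x
      have hl := h.pot.dq_mem hδ' t x
      have hm := h.pot.dq_mem hδ' t (x + ε)
      have h1 := TF_dt_bdd hφ t x
      have h2 := TF_dx_bdd hφ t x
      have h3 := TF_bdd hφ t x
      have h4 := hpm hl
      have h6 : |(1 - dq ε U t x)| ≤ 1 := by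
        have := h.pot.dq_mem hε t x
        rw [abs_le]; constructor <;> linarith [this.1, this.2]
      have h7 : |(u t (x + ε) - u t x) / ε| ≤ 1 / ε := by
        rw [abs_div, abs_of_pos hε]
        gcongr
        exact hdiff (h.u01.2 _ _) (h.u01.2 _ _)
      have h8 : |(dq δ U t (x + ε) - dq δ U t x) / ε| ≤ 1 / ε := by
        rw [abs_div, abs_of_pos hε]
        gcongr
        exact hdiff hm hl
      have h10 : |pm b k (dq δ U t x)| ≤ 1 := by rw [abs_of_nonneg h4.1]; exact h4.2
      have h11 := pm'_abs b k (dq δ U t x)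
      have h12 := h.u01.abs_le t (x + δ)
      calc _ ≤ |pm b k (dq δ U t x) * deriv (fun r => φ r x) t| +
            |pm b k (dq δ U t x) * ((1 - dq ε U t x) * deriv (fun y => φ t y) x
              - (u t (x + ε) - u t x) / ε * φ t x)| +
            |pm' b k (dq δ U t x) * ((dq δ U t (x + ε) - dq δ U t x) / ε) * u t (x + δ) * φ t x| := by
            refine (abs_add_le _ _).trans ?_
            gcongr
            exact abs_add_le _ _
        _ ≤ 1 * L + 1 * (1 * L + 1 / ε * Cφ) + 1 * (1 / ε) * 1 * Cφ := by
            rw [abs_mul, abs_mul, abs_mul, abs_mul, abs_mul]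
            gcongr
            refine (abs_sub _ _).trans ?_
            rw [abs_mul, abs_mul]
            gcongr
        _ = _ := by ring
    apply intervalIntegral.integral_mono_on hsT
    · exact ii_of_bdd (meas_inner mG (-R) R) (fun t => abs_inner_le (bG t) _ _) _ _
    · exact ii_of_bdd (meas_inner (mge δ) (-R) R) (fun t => abs_inner_le
        (fun x => (abs_add_le _ _).trans (add_le_add (bg δ hδ t x) (be δ hδ t x))) _ _) _ _
    · intro t _
      apply intervalIntegral.integral_mono_on hRR
      · exact ii_of_bdd (mG.comp measurable_prodMk_left) (bG t) _ _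
      · exact ii_of_bdd (((mg δ).add (me δ)).comp measurable_prodMk_left)
          (fun x => (abs_add_le _ _).trans (add_le_add (bg δ hδ t x) (be δ hδ t x))) _ _
      · intro x _
        have h1 := crit b (k := k) (w := u t (x + δ)) hk (h.pot.dq_mem hδ' t x)
          (h.pot.dq_mem hδ' t (x + ε)) hε
        have h2 := mul_le_mul_of_nonneg_right h1 (hφ0 t x)
        simp only [hg, he]
        linarith
  have hlhs := (lhs_lim h b hk hφ T).sub (lhs_lim h b hk hφ s)
  have hfinal := le_of_tendsto_of_tendsto hlhs hout hineq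
  -- rewrite the right-hand side
  have hrhs : ∀ t, ∫ x in (-R)..R, g0 t x = ∫ x : ℝ,
      pm b k (u t x) * (deriv (fun r => φ r x) t
        + (1 - dq ε U t x) * deriv (fun y => φ t y) x - k * ((φ t x - φ t (x - ε)) / ε)) := by
    intro t
    have hbs : ∀ {f : ℝ → ℝ} {C : ℝ}, Measurable f → (∀ x, |f x| ≤ C) →
        (∀ x, R ≤ |x| → f x = 0) → Integrable f := by
      intro f C hf hb hz
      have e1 : f = (Icc (-R) R).indicator f := by
        funext x
        by_cases hx : x ∈ Icc (-R) R
        · rw [indicator_of_mem hx]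
        · rw [indicator_of_notMem hx]
          apply hz
          by_contra hcon
          push Not at hcon
          rw [abs_lt] at hcon
          exact hx ⟨hcon.1.le, hcon.2.le⟩
      rw [e1, integrable_indicator_iff measurableSet_Icc]
      apply Measure.integrableOn_of_bounded (M := C)
      · exact measure_Icc_lt_top.ne
      · exact hf.aestronglyMeasurable
      · exact ae_of_all _ fun x => by rw [Real.norm_eq_abs]; exact hb x
    have hz0 : ∀ x, R ≤ |x| → φ t x = 0 := fun x hx => TF_zero hφ (by linarith)
    have hz1 : ∀ x, R ≤ |x| → φ t (x - ε) = 0 := fun x hx => by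
      apply TF_zero hφ
      have := abs_sub_abs_le_abs_sub x ε
      rw [abs_of_pos hε] at this
      linarith
    have hzt : ∀ x, R ≤ |x| → deriv (fun r => φ r x) t = 0 := fun x hx => TF_dt hφ (by linarith)
    have hzx : ∀ x, R ≤ |x| → deriv (fun y => φ t y) x = 0 := fun x hx => TF_dx hφ (by linarith)
    have mu1 : Measurable (u t) := h.u01.meas_x t
    have mpt : Measurable (fun x => pm b k (u t x)) := (pm_cont b k).measurable.comp mu1
    have mpt2 : Measurable (fun x => pm b k (u t (x + ε))) :=
      mpt.comp (measurable_id.add_const ε)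
    have mφ' : Measurable (fun x => φ t x) := mφ.comp measurable_prodMk_left
    have mφ'' : Measurable (fun x => φ t (x - ε)) := mφ'.comp (measurable_id.sub_const ε)
    have mφt' : Measurable (fun x => deriv (fun r => φ r x) t) := mφt.comp measurable_prodMk_left
    have mφx' : Measurable (fun x => deriv (fun y => φ t y) x) := mφx.comp measurable_prodMk_left
    have mdq' : Measurable (fun x => dq ε U t x) := (mdq ε).comp measurable_prodMk_left
    have bpt : ∀ x, |pm b k (u t x)| ≤ 1 := fun x => by
      rw [abs_of_nonneg (pm_nonneg _ _ _)]; exact pm_le_one b hk (h.u01.2 t x)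
    have bφ : ∀ x, |φ t x| ≤ Cφ := TF_bdd hφ t
    have b1a : ∀ x, |(1 - dq ε U t x)| ≤ 1 := fun x => by
      have := h.pot.dq_mem hε t x
      rw [abs_le]; constructor <;> linarith [this.1, this.2]
    have eg : ∀ x, g0 t x = (pm b k (u t x) * (deriv (fun r => φ r x) t
        + (1 - dq ε U t x) * deriv (fun y => φ t y) x - k / ε * φ t x)) +
        k / ε * (pm b k (u t (x + ε)) * φ t x) := by
      intro x
      simp only [hg0]
      ring
    have ef : ∀ x, pm b k (u t x) * (deriv (fun r => φ r x) t
        + (1 - dq ε U t x) * deriv (fun y => φ t y) x - k * ((φ t x - φ t (x - ε)) / ε)) =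
        (pm b k (u t x) * (deriv (fun r => φ r x) t
        + (1 - dq ε U t x) * deriv (fun y => φ t y) x - k / ε * φ t x)) +
        k / ε * (pm b k (u t x) * φ t (x - ε)) := by
      intro x
      field_simp
      ring
    have i1 : Integrable (fun x => pm b k (u t x) * (deriv (fun r => φ r x) t
        + (1 - dq ε U t x) * deriv (fun y => φ t y) x - k / ε * φ t x)) := by
      apply hbs (C := 1 * (L + 1 * L + k / ε * Cφ))
      · exact mpt.mul ((mφt'.add ((measurable_const.sub mdq').mul mφx')).sub
          (measurable_const.mul mφ'))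
      · intro x
        rw [abs_mul]
        have h1 := TF_dt_bdd hφ t x
        have h2 := TF_dx_bdd hφ t x
        gcongr
        · exact bpt x
        · refine (abs_sub _ _).trans ?_
          refine add_le_add ((abs_add_le _ _).trans ?_) ?_
          · rw [abs_mul]
            gcongr
            exact b1a x
          · rw [abs_mul, abs_of_nonneg (div_nonneg hk0 hε.le)]
            gcongr
            exact bφ x
      · intro x hx
        rw [hz0 x hx, hzt x hx, hzx x hx]
        ring
    have i2 : Integrable (fun x => pm b k (u t (x + ε)) * φ t x) := by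
      apply hbs (C := 1 * Cφ)
      · exact mpt2.mul mφ'
      · intro x
        rw [abs_mul]
        gcongr
        · exact bpt _
        · exact bφ x
      · intro x hx
        rw [hz0 x hx, mul_zero]
    have i3 : Integrable (fun x => pm b k (u t x) * φ t (x - ε)) := by
      apply hbs (C := 1 * Cφ)
      · exact mpt.mul mφ''
      · intro x
        rw [abs_mul]
        gcongr
        · exact bpt _
        · exact bφ _
      · intro x hx
        rw [hz1 x hx, mul_zero]
    have e5 : ∫ x in (-R)..R, g0 t x = ∫ x : ℝ, g0 t x := by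
      symm
      apply int_eq
      intro x hx
      simp only [hg0]
      rw [hz0 x hx, hzt x hx, hzx x hx]
      ring
    rw [e5]
    simp only [eg, ef]
    rw [integral_add i1 (i2.const_mul _), integral_add i1 (i3.const_mul _),
      integral_const_mul, integral_const_mul]
    congr 2
    have h6 := integral_add_right_eq_self (μ := volume) (fun x => pm b k (u t x) * φ t (x - ε)) ε
    simp only [add_sub_cancel_right] at h6
    exact h6
  have hrhs' : (∫ t in s..T, ∫ x in (-R)..R, g0 t x) = ∫ t in s..T, ∫ x : ℝ,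
      pm b k (u t x) * (deriv (fun r => φ r x) t
        + (1 - dq ε U t x) * deriv (fun y => φ t y) x - k * ((φ t x - φ t (x - ε)) / ε)) := by
    simp only [hrhs]
  rw [hrhs'] at hfinal
  linarith

end Pool.Agent.W749.TF
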