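import Pool.Agent.W749.TF.Id

set_option autoImplicit false

open MeasureTheory Set Filter Topology

namespace Pool.Agent.W749.TF
open Pool.Agent.W807.TF

/-- the Hopf–Lax function, constant in time for `t ≤ 0` -/
noncomputable def Psi (U0 : ℝ → ℝ) (t x : ℝ) : ℝ := HL U0 (max t 0) x

/-- its space derivative -/
noncomputable def ww (U0 : ℝ → ℝ) (t x : ℝ) : ℝ := deriv (fun y => Psi U0 t y) x

section

variable {U0 : ℝ → ℝ} (hF : HLFacts U0)

include hF

theorem Psi_cont : Continuous (Function.uncurry (Psi U0)) := by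
  have h1 : Continuous fun p : ℝ × ℝ => ((max p.1 0, p.2) : ℝ × ℝ) := by fun_prop
  exact hF.cont.comp h1

theorem Psi_mono (t : ℝ) : Monotone (fun y => Psi U0 t y) := fun x y hxy =>
  hF.mono _ x y (le_max_right _ _) hxy

theorem Psi_lip_x (t : ℝ) : ∀ x y, |Psi U0 t x - Psi U0 t y| ≤ 1 * |x - y| := by
  intro x y
  rw [one_mul]
  rcases le_total x y with hxy | hxy
  · have h1 := Psi_mono hF t hxy
    have h2 := hF.lipx (max t 0) x y (le_max_right _ _) hxy
    simp only at h1
    rw [abs_of_nonpos (by linarith), abs_of_nonpos (by linarith)]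
    unfold Psi
    linarith
  · have h1 := Psi_mono hF t hxy
    have h2 := hF.lipx (max t 0) y x (le_max_right _ _) hxy
    simp only at h1
    rw [abs_of_nonneg (by linarith), abs_of_nonneg (by linarith)]
    unfold Psi
    linarith

theorem Psi_lip_t (x : ℝ) : ∀ s t, |Psi U0 s x - Psi U0 t x| ≤ 1 * |s - t| := by
  intro s t
  rw [one_mul]
  have key : ∀ a b : ℝ, 0 ≤ a → a ≤ b → |HL U0 a x - HL U0 b x| ≤ |a - b| := by
    intro a b ha hab
    have := hF.lipt a b x ha hab
    rw [abs_of_nonneg (by linarith [this.1]), abs_of_nonpos (by linarith)]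
    linarith [this.2]
  have h1 : |max s 0 - max t 0| ≤ |s - t| := abs_max_sub_max_le_abs _ _ _
  refine le_trans ?_ h1
  unfold Psi
  rcases le_total (max s 0) (max t 0) with h | h
  · exact key _ _ (le_max_right _ _) h
  · rw [abs_sub_comm, abs_sub_comm (max s 0)]
    exact key _ _ (le_max_right _ _) h

theorem ww_meas : Measurable (Function.uncurry (ww U0)) := measurable_deriv_with_param (Psi_cont hF)

theorem ww_mem (t x : ℝ) : 0 ≤ ww U0 t x ∧ ww U0 t x ≤ 1 := by
  constructor
  · exact (Psi_mono hF t).deriv_nonneg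
  · have := norm_deriv_le_of_lipschitz (lipW (Psi_lip_x hF t)) (x₀ := x)
    rw [Real.norm_eq_abs] at this
    refine (le_abs_self _).trans (this.trans ?_)
    simp

theorem ww_01 : Fun01 (ww U0) := ⟨ww_meas hF, ww_mem hF⟩

theorem ww_int (t a b : ℝ) : ∫ x in a..b, ww U0 t x = Psi U0 t b - Psi U0 t a :=
  (lip_ac (Psi_lip_x hF t) a b).integral_deriv_eq_sub

theorem ww_pde {T B : ℝ} (hT : 0 ≤ T) (hB : 0 ≤ B) :
    ∫ t in (0:ℝ)..T, ∫ x in (-B)..B, ww U0 t x * (1 - ww U0 t x) ≤
      ∫ x in (-B)..B, (U0 x - Psi U0 T x) := by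
  have mw := ww_meas hF
  have mg : Measurable (Function.uncurry fun t x => ww U0 t x * (1 - ww U0 t x)) :=
    mw.mul (measurable_const.sub mw)
  have bg : ∀ t x, |ww U0 t x * (1 - ww U0 t x)| ≤ 1 := by
    intro t x
    have := ww_mem hF t x
    rw [abs_of_nonneg (mul_nonneg this.1 (by linarith [this.2]))]
    nlinarith [this.1, this.2]
  have hBB : -B ≤ B := by linarith
  rw [swap_ii mg bg hT hBB]
  -- differentiability in `x` for almost every `t`
  have hA : MeasurableSet {p : ℝ × ℝ | DifferentiableAt ℝ (Psi U0 p.1) p.2} :=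
    measurableSet_of_differentiableAt_with_param ℝ (Psi_cont hF)
  have h1 : ∀ᵐ t : ℝ, ∀ᵐ x : ℝ, DifferentiableAt ℝ (Psi U0 t) x :=
    ae_of_all _ fun t => lip_ae (Psi_lip_x hF t)
  have h2 : ∀ᵐ x : ℝ, ∀ᵐ t : ℝ, DifferentiableAt ℝ (Psi U0 t) x :=
    (Measure.ae_ae_comm (μ := volume) (ν := volume)
      (p := fun t x => DifferentiableAt ℝ (Psi U0 t) x) hA).1 h1
  apply intervalIntegral.integral_mono_ae hBB
  · exact ii_of_bdd (meas_inner' mg 0 T) (fun x => abs_inner_le (fun t => bg t x) _ _) _ _
  · apply Continuous.intervalIntegrable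
    have h3 : Continuous U0 := by
      have : U0 = fun x => Psi U0 0 x := by
        funext x
        unfold Psi
        rw [max_self, hF.zero]
      rw [this]
      exact (Psi_cont hF).comp (Continuous.prodMk_right (0:ℝ))
    exact h3.sub ((Psi_cont hF).comp (Continuous.prodMk_right T))
  · filter_upwards [h2] with x hx
    have hac := lip_ac (Psi_lip_t hF x) 0 T
    have e1 : U0 x - Psi U0 T x = ∫ t in (0:ℝ)..T, -deriv (fun s => Psi U0 s x) t := by
      rw [intervalIntegral.integral_neg, hac.integral_deriv_eq_sub]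
      have : Psi U0 0 x = U0 x := by
        unfold Psi
        rw [max_self, hF.zero]
      rw [this]
      ring
    rw [e1]
    apply intervalIntegral.integral_mono_ae_restrict hT
    · exact ii_of_bdd (mg.comp measurable_prodMk_right) (fun t => bg t x) _ _
    · exact hac.intervalIntegrable_deriv.neg
    · have hne : ∀ᵐ t : ℝ, t ≠ 0 := compl_mem_ae_iff.mpr (measure_singleton 0)
      filter_upwards [ae_restrict_of_ae hx, ae_restrict_of_ae (lip_ae (Psi_lip_t hF x)),
        ae_restrict_of_ae hne, ae_restrict_mem measurableSet_Icc] with t ht1 ht2 ht3 ht4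
      have ht0 : 0 < t := lt_of_le_of_ne ht4.1 (Ne.symm ht3)
      have hd1 : HasDerivAt (fun y => HL U0 t y) (ww U0 t x) x := by
        have h3 := ht1.hasDerivAt
        have e2 : Psi U0 t = fun y => HL U0 t y := by
          funext y
          unfold Psi
          rw [max_eq_left ht0.le]
        unfold ww
        rw [e2] at h3 ⊢
        exact h3
      have hd2 : HasDerivAt (fun s => HL U0 s x) (deriv (fun s => Psi U0 s x) t) t := by
        apply ht2.hasDerivAt.congr_of_eventuallyEq
        filter_upwards [Ioi_mem_nhds ht0] with s hs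
        unfold Psi
        rw [max_eq_left (le_of_lt hs)]
      have := hF.pde t x _ _ ht0 hd1 hd2
      linarith

end

end Pool.Agent.W749.TF
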