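import Pool.Agent.W749.TF.C1

set_option autoImplicit false

open MeasureTheory Set Filter Topology

namespace Pool.Agent.W749.TF
open Pool.Agent.W807.TF

/-- moving average -/
noncomputable def av (ε : ℝ) (V : ℝ → ℝ) (x : ℝ) : ℝ := 1 / ε * ∫ y in x..(x + ε), V y

theorem av_deriv {V : ℝ → ℝ} (hV : Continuous V) (ε x : ℝ) :
    HasDerivAt (av ε V) ((V (x + ε) - V x) / ε) x := by
  have h1 : ∀ z, HasDerivAt (fun z => ∫ y in (0:ℝ)..z, V y) (V z) z := fun z =>
    (hV.integral_hasStrictDerivAt 0 z).hasDerivAt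
  have h2 := ((h1 (x + ε)).comp_add_const x ε).sub (h1 x)
  have h3 : HasDerivAt (fun z => 1 / ε * ((∫ y in (0:ℝ)..(z + ε), V y) - ∫ y in (0:ℝ)..z, V y))
      (1 / ε * (V (x + ε) - V x)) x := h2.const_mul (1 / ε)
  have e : av ε V = fun z => 1 / ε * ((∫ y in (0:ℝ)..(z + ε), V y) - ∫ y in (0:ℝ)..z, V y) := by
    funext z
    unfold av
    rw [intervalIntegral.integral_interval_sub_left (hV.intervalIntegrable _ _)
      (hV.intervalIntegrable _ _)]
  rw [e]
  convert h3 using 1
  ring

theorem av_close {V : ℝ → ℝ} (hV : ∀ x y, |V x - V y| ≤ |x - y|) {ε : ℝ} (hε : 0 < ε) (x : ℝ) :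
    |V x - av ε V x| ≤ ε := by
  have hVc : Continuous V := by
    have : LipschitzWith 1 V := by
      apply LipschitzWith.of_dist_le_mul
      intro a b
      simpa [Real.dist_eq] using hV a b
    exact this.continuous
  have e : V x - av ε V x = 1 / ε * ∫ y in x..(x + ε), (V x - V y) := by
    unfold av
    rw [intervalIntegral.integral_sub intervalIntegrable_const (hVc.intervalIntegrable _ _),
      intervalIntegral.integral_const]
    simp only [add_sub_cancel_left, smul_eq_mul]
    field_simp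
  rw [e, abs_mul, abs_of_pos (by positivity)]
  have h1 : |∫ y in x..(x + ε), (V x - V y)| ≤ ε * |x + ε - x| := by
    have := intervalIntegral.norm_integral_le_of_norm_le_const (a := x) (b := x + ε) (C := ε)
      (f := fun y => V x - V y) (fun y hy => by
        rw [Real.norm_eq_abs]
        rw [uIoc_of_le (by linarith)] at hy
        refine (hV x y).trans ?_
        rw [abs_le]
        constructor <;> linarith [hy.1, hy.2])
    rwa [Real.norm_eq_abs] at this
  rw [add_sub_cancel_left, abs_of_pos hε] at h1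
  calc 1 / ε * |∫ y in x..(x + ε), (V x - V y)| ≤ 1 / ε * (ε * ε) := by gcongr
    _ = ε := by field_simp

theorem msh {v : ℝ → ℝ → ℝ} (hv : Measurable (Function.uncurry v)) (c : ℝ) :
    Measurable (Function.uncurry fun t x => v t (x + c)) := by
  have : Measurable (fun p : ℝ × ℝ => ((p.1, p.2 + c) : ℝ × ℝ)) := by fun_prop
  exact hv.comp this

section NLs

variable {ub : ℝ → ℝ} {ε : ℝ} {u U : ℝ → ℝ → ℝ} (h : NL ub ε u U)

include h

theorem mdq (δ : ℝ) : Measurable (Function.uncurry (dq δ U)) := h.pot.dq_cont.measurable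

/-- integration by parts for the moving average -/
theorem parts {B : ℝ} (hB : 0 ≤ B) : ∀ᵐ t ∂(volume.restrict (Ioi (0:ℝ))),
    |∫ x in (-B)..B, dq ε U t x * (u t x - dq ε U t x)| ≤
      2 * ε + ∫ x in (-B)..B, |u t (x + ε) - u t x| := by
  have hε := h.eps
  filter_upwards [space_deriv h] with t ht
  have hUc : Continuous (fun y => U t y) := h.pot.cont_x t
  have hav : ∀ x, HasDerivAt (av ε (U t)) (dq ε U t x) x := fun x => av_deriv hUc ε x
  have hdq01 := fun x => h.pot.dq_mem hε t x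
  -- Lipschitz bounds
  have hfl : ∀ x y, |dq ε U t x - dq ε U t y| ≤ (2 / ε) * |x - y| := by
    intro x y
    have := h.pot.dq_lip hε t t x y
    rwa [sub_self, abs_zero, zero_add] at this
  have havl : ∀ x y, |av ε (U t) x - av ε (U t) y| ≤ 1 * |x - y| := by
    intro x y
    have h1 := Convex.norm_image_sub_le_of_norm_hasDerivWithin_le (f := av ε (U t))
      (f' := fun x => dq ε U t x) (s := univ) (C := 1) (x := y) (y := x)
      (fun z _ => (hav z).hasDerivWithinAt) (fun z _ => by
        rw [Real.norm_eq_abs, abs_of_nonneg (hdq01 z).1]; exact (hdq01 z).2) convex_univ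
      (mem_univ _) (mem_univ _)
    rwa [Real.norm_eq_abs, Real.norm_eq_abs] at h1
  have hgl : ∀ x y, |(U t x - av ε (U t) x) - (U t y - av ε (U t) y)| ≤ 2 * |x - y| := by
    intro x y
    calc |(U t x - av ε (U t) x) - (U t y - av ε (U t) y)| =
        |(U t x - U t y) - (av ε (U t) x - av ε (U t) y)| := by congr 1; ring
      _ ≤ |U t x - U t y| + |av ε (U t) x - av ε (U t) y| := abs_sub _ _
      _ ≤ |x - y| + 1 * |x - y| := add_le_add (h.pot.lip_x t x y) (havl x y)
      _ = _ := by ring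
  have hparts := (lip_ac hfl (-B) B).integral_mul_deriv_eq_deriv_mul (lip_ac hgl (-B) B)
  have hlhs : ∫ x in (-B)..B, dq ε U t x * (u t x - dq ε U t x) =
      ∫ x in (-B)..B, dq ε U t x * deriv (fun x => U t x - av ε (U t) x) x := by
    apply intervalIntegral.integral_congr_ae
    filter_upwards [ht] with x hx _
    have h1 : HasDerivAt (fun x => U t x - av ε (U t) x) (u t x - dq ε U t x) x := hx.sub (hav x)
    rw [h1.deriv]
  have hclose : ∀ x, |U t x - av ε (U t) x| ≤ ε := fun x => av_close (h.pot.lip_x t) hε x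
  have hrest : |∫ x in (-B)..B, deriv (fun x => dq ε U t x) x * (U t x - av ε (U t) x)| ≤
      ∫ x in (-B)..B, |u t (x + ε) - u t x| := by
    rw [← Real.norm_eq_abs]
    apply intervalIntegral.norm_integral_le_of_norm_le (by linarith)
    · filter_upwards [ht, ae_shift ht ε] with x hx1 hx2 _
      have h1 := dq_space (t := t) hx1 hx2
      rw [h1.deriv, Real.norm_eq_abs, abs_mul, abs_div, abs_of_pos hε]
      calc |u t (x + ε) - u t x| / ε * |U t x - av ε (U t) x| ≤
            |u t (x + ε) - u t x| / ε * ε := by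
            gcongr
            exact hclose x
        _ = _ := by field_simp
    · have hm : Measurable (fun x => |u t (x + ε) - u t x|) :=
        (((h.u01.meas_x t).comp (measurable_id.add_const ε)).sub (h.u01.meas_x t)).abs
      apply ii_of_bdd (M := 1) hm
      intro x
      rw [abs_abs, abs_le]
      have h5 := h.u01.2 t x
      have h6 := h.u01.2 t (x + ε)
      constructor <;> linarith [h5.1, h5.2, h6.1, h6.2]
  rw [hlhs, hparts]
  have hb : ∀ x, |dq ε U t x * (U t x - av ε (U t) x)| ≤ ε := by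
    intro x
    rw [abs_mul, abs_of_nonneg (hdq01 x).1]
    calc dq ε U t x * |U t x - av ε (U t) x| ≤ 1 * ε := by
          gcongr
          · exact (hdq01 x).2
          · exact hclose x
      _ = ε := one_mul _
  calc _ ≤ |dq ε U t B * (U t B - av ε (U t) B) - dq ε U t (-B) * (U t (-B) - av ε (U t) (-B))| +
        |∫ x in (-B)..B, deriv (fun x => dq ε U t x) x * (U t x - av ε (U t) x)| := abs_sub _ _
    _ ≤ (|dq ε U t B * (U t B - av ε (U t) B)| + |dq ε U t (-B) * (U t (-B) - av ε (U t) (-B))|) +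
        ∫ x in (-B)..B, |u t (x + ε) - u t x| := add_le_add (abs_sub _ _) hrest
    _ ≤ (ε + ε) + ∫ x in (-B)..B, |u t (x + ε) - u t x| := by
        gcongr
        · exact hb B
        · exact hb (-B)
    _ = _ := by ring

/-- the first moment -/
theorem mass {T B : ℝ} (hT : 0 ≤ T) :
    ∫ t in (0:ℝ)..T, ∫ x in (-B)..B, u t x = ∫ t in (0:ℝ)..T, (U t B - U t (-B)) := by
  apply intervalIntegral.integral_congr_ae
  have h1 := (ae_restrict_iff' measurableSet_Ioi).1 h.pot.dx
  filter_upwards [h1] with t ht ht2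
  rw [uIoc_of_le hT] at ht2
  exact (ht ht2.1 (-B) B).symm

/-- the flux -/
theorem flux {T B : ℝ} (hT : 0 ≤ T) (hB : 0 ≤ B) :
    ∫ t in (0:ℝ)..T, ∫ x in (-B)..B, u t x * (1 - dq ε U t x) =
      ∫ x in (-B)..B, (prim ub x - U T x) := by
  have hF := h.flux01
  rw [swap_ii hF.1 (M := 1) (fun t x => hF.abs_le t x) hT (by linarith)]
  apply intervalIntegral.integral_congr_ae
  filter_upwards [h.pot.dt] with x hx _
  have := hx T hT
  rw [h.pot.init] at this
  rw [this]
  ring

/-- `L¹` bound for the jumps -/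
theorem jump {T B σ : ℝ} (hT : 0 ≤ T) (hB : 0 ≤ B) (hσ : 0 < σ) :
    ∫ t in (0:ℝ)..T, ∫ x in (-B)..B, |u t (x + ε) - u t x| ≤
      (2 * B * T) * σ + 1 / σ ^ 2 * ∫ t in (0:ℝ)..T, ∫ x in (-B)..B, |u t (x + ε) - u t x| ^ 3 := by
  have mu := h.u01.1
  have hdiff : ∀ t x, |u t (x + ε) - u t x| ≤ 1 := by
    intro t x
    rw [abs_le]
    have h5 := h.u01.2 t x
    have h6 := h.u01.2 t (x + ε)
    constructor <;> linarith [h5.1, h5.2, h6.1, h6.2]
  have m1 : Measurable (Function.uncurry fun t x => |u t (x + ε) - u t x|) :=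
    ((msh mu ε).sub mu).abs
  have m3 : Measurable (Function.uncurry fun t x => |u t (x + ε) - u t x| ^ 3) :=
    ((msh mu ε).sub mu).abs.pow_const 3
  have b1 : ∀ t x, |(|u t (x + ε) - u t x|)| ≤ 1 := fun t x => by rw [abs_abs]; exact hdiff t x
  have b3 : ∀ t x, |(|u t (x + ε) - u t x| ^ 3)| ≤ 1 := by
    intro t x
    rw [abs_of_nonneg (by positivity)]
    exact pow_le_one₀ (abs_nonneg _) (hdiff t x)
  have hpt : ∀ a : ℝ, 0 ≤ a → a ≤ σ + 1 / σ ^ 2 * a ^ 3 := by
    intro a ha
    rcases le_total a σ with h1 | h1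
    · have : 0 ≤ 1 / σ ^ 2 * a ^ 3 := by positivity
      linarith
    · have h2 : a ≤ 1 / σ ^ 2 * a ^ 3 := by
        rw [one_div, inv_mul_eq_div, le_div_iff₀ (by positivity)]
        have : σ ^ 2 ≤ a ^ 2 := by gcongr
        nlinarith
      linarith
  have hBB : -B ≤ B := by linarith
  have i3 : ∀ t, IntervalIntegrable (fun x => |u t (x + ε) - u t x| ^ 3) volume (-B) B := fun t =>
    ii_of_bdd (m3.comp measurable_prodMk_left) (b3 t) _ _
  have hin : ∀ t, ∫ x in (-B)..B, |u t (x + ε) - u t x| ≤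
      2 * B * σ + 1 / σ ^ 2 * ∫ x in (-B)..B, |u t (x + ε) - u t x| ^ 3 := by
    intro t
    calc ∫ x in (-B)..B, |u t (x + ε) - u t x| ≤
          ∫ x in (-B)..B, (σ + 1 / σ ^ 2 * |u t (x + ε) - u t x| ^ 3) := by
          apply intervalIntegral.integral_mono_on hBB
          · exact ii_of_bdd (m1.comp measurable_prodMk_left) (b1 t) _ _
          · exact intervalIntegrable_const.add ((i3 t).const_mul _)
          · intro x _
            exact hpt _ (abs_nonneg _)
      _ = _ := by
          rw [intervalIntegral.integral_add intervalIntegrable_const ((i3 t).const_mul _),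
            intervalIntegral.integral_const_mul, intervalIntegral.integral_const, smul_eq_mul]
          ring
  have mi3 := meas_inner m3 (-B) B
  have bi3 : ∀ t, |∫ x in (-B)..B, |u t (x + ε) - u t x| ^ 3| ≤ 1 * |B - -B| := fun t =>
    abs_inner_le (b3 t) _ _
  calc ∫ t in (0:ℝ)..T, ∫ x in (-B)..B, |u t (x + ε) - u t x| ≤
        ∫ t in (0:ℝ)..T, (2 * B * σ + 1 / σ ^ 2 * ∫ x in (-B)..B, |u t (x + ε) - u t x| ^ 3) := by
        apply intervalIntegral.integral_mono_on hT
        · exact ii_of_bdd (meas_inner m1 (-B) B) (fun t => abs_inner_le (b1 t) _ _) _ _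
        · exact intervalIntegrable_const.add ((ii_of_bdd mi3 bi3 _ _).const_mul _)
        · intro t _
          exact hin t
    _ = _ := by
        rw [intervalIntegral.integral_add intervalIntegrable_const
          ((ii_of_bdd mi3 bi3 _ _).const_mul _), intervalIntegral.integral_const_mul (1 / σ ^ 2)
          (fun t => ∫ x in (-B)..B, |u t (x + ε) - u t x| ^ 3),
          intervalIntegral.integral_const, smul_eq_mul]
        ring

end NLs

/-- a squeeze lemma -/
theorem squeeze_sig {Y : ℝ → ℝ} {A : ℝ} (hA : 0 ≤ A) {Z : ℝ → ℝ → ℝ}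
    (h0 : ∀ᶠ ε in 𝓝[>] (0:ℝ), 0 ≤ Y ε)
    (h : ∀ σ : ℝ, 0 < σ → ∀ᶠ ε in 𝓝[>] (0:ℝ), Y ε ≤ A * σ + Z σ ε)
    (hZ : ∀ σ : ℝ, 0 < σ → Tendsto (Z σ) (𝓝[>] 0) (𝓝 0)) : Tendsto Y (𝓝[>] 0) (𝓝 0) := by
  rw [Metric.tendsto_nhds]
  intro θ hθ
  set σ : ℝ := θ / (2 * (A + 1)) with hσ
  have hσ0 : 0 < σ := by positivity
  have h1 : A * σ ≤ θ / 2 := by
    rw [hσ, mul_div_assoc', div_le_div_iff₀ (by positivity) (by norm_num)]
    nlinarith
  have h2 := (hZ σ hσ0).eventually (gt_mem_nhds (show 0 < θ / 2 by positivity))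
  filter_upwards [h0, h σ hσ0, h2] with ε hε0 hε1 hε2
  rw [Real.dist_eq, sub_zero, abs_of_nonneg hε0]
  linarith

end Pool.Agent.W749.TF
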