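import Pool.Agent.W749.TF.Id

set_option autoImplicit false

open MeasureTheory Set Filter Topology

namespace Pool.Agent.W749.TF
open Pool.Agent.W807.TF

/-- continuity of translations in `L¹` -/
theorem transl {v : ℝ → ℝ} (hv : Measurable v) (hb : ∀ x, |v x| ≤ 1) {R : ℝ} (hR : 0 ≤ R) :
    Tendsto (fun δ => ∫ x in (-R)..R, |v (x + δ) - v x|) (𝓝 0) (𝓝 0) := by
  set w : ℝ → ℝ := (Icc (-(R + 1)) (R + 1)).indicator v with hw
  have hwm : Measurable w := hv.indicator measurableSet_Icc
  have hwi : Integrable w := by
    rw [hw, integrable_indicator_iff measurableSet_Icc]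
    apply Measure.integrableOn_of_bounded (M := 1)
    · exact measure_Icc_lt_top.ne
    · exact hv.aestronglyMeasurable
    · exact ae_of_all _ fun x => by rw [Real.norm_eq_abs]; exact hb x
  rw [Metric.tendsto_nhds]
  intro θ hθ
  obtain ⟨g, hgs, hgle, hgc, hgi⟩ := hwi.exists_hasCompactSupport_integral_sub_le
    (show 0 < θ / 4 by positivity)
  obtain ⟨Cg, hCg⟩ := hgc.bounded_above_of_compact_support hgs
  have hg0 : Tendsto (fun δ => ∫ x in (-R)..R, |g (x + δ) - g x|) (𝓝 0) (𝓝 0) := by
    have h1 := intervalIntegral.tendsto_integral_filter_of_dominated_convergence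
      (μ := volume) (a := -R) (b := R) (l := 𝓝 (0:ℝ)) (F := fun δ x => |g (x + δ) - g x|)
      (f := fun _ => (0:ℝ)) (fun _ => Cg + Cg)
      (Eventually.of_forall fun δ => by
        have : Continuous fun x => |g (x + δ) - g x| := by fun_prop
        exact this.aestronglyMeasurable)
      (Eventually.of_forall fun δ => ae_of_all _ fun x _ => by
        rw [Real.norm_eq_abs, abs_abs]
        exact (abs_sub _ _).trans (add_le_add (hCg _) (hCg _)))
      intervalIntegrable_const
      (ae_of_all _ fun x _ => by
        have : Continuous fun δ => |g (x + δ) - g x| := by fun_prop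
        have h2 := this.tendsto 0
        simpa using h2)
    simpa using h1
  have hev := (Metric.tendsto_nhds.1 hg0) (θ / 4) (by positivity)
  filter_upwards [hev, Metric.ball_mem_nhds (0:ℝ) one_pos] with δ hδ1 hδ2
  rw [Real.dist_eq, sub_zero] at hδ1 ⊢
  rw [Metric.mem_ball, Real.dist_eq, sub_zero] at hδ2
  have hRR : -R ≤ R := by linarith
  have hnn : ∀ f : ℝ → ℝ, 0 ≤ ∫ x in (-R)..R, |f x| := fun f =>
    intervalIntegral.integral_nonneg hRR fun x _ => abs_nonneg _
  rw [abs_of_nonneg (hnn _)] at hδ1 ⊢
  have hwgi : Integrable (fun x => |w x - g x|) := (hwi.sub hgi).abs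
  have hwgi2 : Integrable (fun x => |w (x + δ) - g (x + δ)|) := hwgi.comp_add_right δ
  have hgg : Continuous fun x => |g (x + δ) - g x| := by fun_prop
  have h1 : ∫ x in (-R)..R, |v (x + δ) - v x| ≤
      ∫ x in (-R)..R, (|w (x + δ) - g (x + δ)| + |g (x + δ) - g x| + |w x - g x|) := by
    apply intervalIntegral.integral_mono_on hRR
    · apply ii_of_bdd (M := 2)
      · exact ((hv.comp (measurable_id.add_const δ)).sub hv).abs
      · intro x
        rw [abs_abs]
        refine (abs_sub _ _).trans ?_
        linarith [hb (x + δ), hb x]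
    · exact ((hwgi2.intervalIntegrable).add (hgg.intervalIntegrable _ _)).add
        hwgi.intervalIntegrable
    · intro x hx
      have hδ3 := abs_lt.1 hδ2
      have e1 : v x = w x := by
        rw [hw, indicator_of_mem]
        exact ⟨by linarith [hx.1], by linarith [hx.2]⟩
      have e2 : v (x + δ) = w (x + δ) := by
        rw [hw, indicator_of_mem]
        exact ⟨by linarith [hx.1], by linarith [hx.2]⟩
      rw [e1, e2]
      calc |w (x + δ) - w x| = |(w (x + δ) - g (x + δ)) + (g (x + δ) - g x) - (w x - g x)| := by
            congr 1; ring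
        _ ≤ |(w (x + δ) - g (x + δ)) + (g (x + δ) - g x)| + |w x - g x| := abs_sub _ _
        _ ≤ _ := by gcongr; exact abs_add_le _ _
  have h2 : ∫ x in (-R)..R, |w x - g x| ≤ θ / 4 := by
    rw [intervalIntegral.integral_of_le hRR]
    exact (setIntegral_le_integral hwgi (ae_of_all _ fun x => abs_nonneg _)).trans hgle
  have h3 : ∫ x in (-R)..R, |w (x + δ) - g (x + δ)| ≤ θ / 4 := by
    rw [intervalIntegral.integral_of_le hRR]
    refine (setIntegral_le_integral hwgi2 (ae_of_all _ fun x => abs_nonneg _)).trans ?_
    rw [integral_add_right_eq_self (fun x => |w x - g x|) δ]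
    exact hgle
  rw [intervalIntegral.integral_add (hwgi2.intervalIntegrable.add (hgg.intervalIntegrable _ _))
    hwgi.intervalIntegrable, intervalIntegral.integral_add hwgi2.intervalIntegrable
    (hgg.intervalIntegrable _ _)] at h1
  linarith

/-- derivative of the half-entropy -/
noncomputable def pm' (b : Bool) (k l : ℝ) : ℝ := if b then (if k < l then 1 else 0) else
  (if l < k then -1 else 0)

theorem pm_nonneg (b : Bool) (k l : ℝ) : 0 ≤ pm b k l := le_max_right _ _

theorem pm_cont (b : Bool) (k : ℝ) : Continuous (pm b k) := by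
  unfold pm
  cases b <;> simp <;> fun_prop

theorem pm_lip (b : Bool) (k l m : ℝ) : |pm b k l - pm b k m| ≤ |l - m| := by
  unfold pm
  refine (abs_max_sub_max_le_abs _ _ _).trans ?_
  cases b
  · simp only [Bool.false_eq_true, if_false]
    rw [show k - l - (k - m) = -(l - m) by ring, abs_neg]
  · simp only [if_true]
    rw [show l - k - (m - k) = l - m by ring]

theorem pm_le_one (b : Bool) {k l : ℝ} (hk : k ∈ Icc (0:ℝ) 1) (hl : l ∈ Icc (0:ℝ) 1) :
    pm b k l ≤ 1 := by
  unfold pm
  apply max_le _ zero_le_one
  cases b
  · simp only [Bool.false_eq_true, if_false]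
    linarith [hk.2, hl.1]
  · simp only [if_true]
    linarith [hk.1, hl.2]

theorem pm'_abs (b : Bool) (k l : ℝ) : |pm' b k l| ≤ 1 := by
  unfold pm'
  cases b
  · simp only [Bool.false_eq_true, if_false]
    split_ifs <;> simp
  · simp only [if_true]
    split_ifs <;> simp

theorem pm'_mul (b : Bool) (k l : ℝ) : pm' b k l * (l - k) = pm b k l := by
  unfold pm' pm
  cases b
  · simp only [Bool.false_eq_true, if_false]
    split_ifs with h
    · rw [max_eq_left (by linarith)]; ring
    · rw [max_eq_right (by linarith)]; ring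
  · simp only [if_true]
    split_ifs with h
    · rw [max_eq_left (by linarith)]; ring
    · rw [max_eq_right (by linarith)]; ring

theorem pm'_conv (b : Bool) (k l m : ℝ) : pm' b k l * (m - l) ≤ pm b k m - pm b k l := by
  have h1 := pm'_mul b k l
  unfold pm' at h1 ⊢
  unfold pm at h1 ⊢
  cases b
  · simp only [Bool.false_eq_true, if_false] at h1 ⊢
    split_ifs with h
    · rw [max_eq_left (a := k - l) (by linarith)]
      have := le_max_left (k - m) 0
      linarith
    · rw [max_eq_right (a := k - l) (by linarith)]
      have := le_max_right (k - m) 0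
      linarith
  · simp only [if_true] at h1 ⊢
    split_ifs with h
    · rw [max_eq_left (a := l - k) (by linarith)]
      have := le_max_left (m - k) 0
      linarith
    · rw [max_eq_right (a := l - k) (by linarith)]
      have := le_max_right (m - k) 0
      linarith

theorem pm_entPair (b : Bool) (k : ℝ) : EntPair (pm b k) (pm' b k) 1 where
  meas' := by
    unfold pm'
    cases b
    · simp only [Bool.false_eq_true, if_false]
      exact Measurable.ite measurableSet_Iio measurable_const measurable_const
    · simp only [if_true]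
      exact Measurable.ite measurableSet_Ioi measurable_const measurable_const
  bd' := fun l _ => pm'_abs b k l
  lip := fun l _ m _ => by rw [one_mul]; exact pm_lip b k l m
  cont := pm_cont b k
  chain := by
    intro f t a c hf hc
    rcases lt_trichotomy (f t) k with h | h | h
    · -- `f t < k`
      have hev : ∀ᶠ s in 𝓝 t, f s < k := hf.continuousAt.eventually (gt_mem_nhds h)
      cases b
      · have e : (fun s => pm false k (f s)) =ᶠ[𝓝 t] fun s => k - f s := by
          filter_upwards [hev] with s hs
          simp only [pm, Bool.false_eq_true, if_false]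
          exact max_eq_left (by linarith)
        have h2 : HasDerivAt (fun s => k - f s) c t := hc.congr_of_eventuallyEq e.symm
        have h3 := h2.unique (hf.const_sub k)
        rw [h3]
        simp [pm', h]
      · have e : (fun s => pm true k (f s)) =ᶠ[𝓝 t] fun _ => 0 := by
          filter_upwards [hev] with s hs
          simp only [pm, if_true]
          exact max_eq_right (by linarith)
        have h2 : HasDerivAt (fun _ : ℝ => (0:ℝ)) c t := hc.congr_of_eventuallyEq e.symm
        have h3 := h2.unique (hasDerivAt_const t (0:ℝ))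
        rw [h3]
        simp [pm', h.le]
    · -- `f t = k`
      have h0 : pm b k (f t) = 0 := by
        unfold pm
        cases b <;> simp [h]
      have hmin : IsLocalMin (fun s => pm b k (f s)) t := by
        apply Eventually.of_forall
        intro s
        simp only
        rw [h0]
        exact pm_nonneg _ _ _
      have h3 := hmin.hasDerivAt_eq_zero hc
      rw [h3]
      unfold pm'
      cases b <;> simp [h]
    · have hev : ∀ᶠ s in 𝓝 t, k < f s := hf.continuousAt.eventually (lt_mem_nhds h)
      cases b
      · have e : (fun s => pm false k (f s)) =ᶠ[𝓝 t] fun _ => 0 := by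
          filter_upwards [hev] with s hs
          simp only [pm, Bool.false_eq_true, if_false]
          exact max_eq_right (by linarith)
        have h2 : HasDerivAt (fun _ : ℝ => (0:ℝ)) c t := hc.congr_of_eventuallyEq e.symm
        have h3 := h2.unique (hasDerivAt_const t (0:ℝ))
        rw [h3]
        simp [pm', h.le]
      · have e : (fun s => pm true k (f s)) =ᶠ[𝓝 t] fun s => f s - k := by
          filter_upwards [hev] with s hs
          simp only [pm, if_true]
          exact max_eq_left (by linarith)
        have h2 : HasDerivAt (fun s => f s - k) c t := hc.congr_of_eventuallyEq e.symm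
        have h3 := h2.unique (hf.sub_const k)
        rw [h3]
        simp [pm', h]

/-- pointwise bound for the critical term -/
theorem crit (b : Bool) {k l m w ε : ℝ} (hk : k ∈ Icc (0:ℝ) 1) (hl : l ∈ Icc (0:ℝ) 1)
    (hm : m ∈ Icc (0:ℝ) 1) (hε : 0 < ε) :
    pm' b k l * ((m - l) / ε) * w ≤
      k / ε * (pm b k m - pm b k l) + pm b k l * ((m - l) / ε) + 1 / ε * |w - l| := by
  have h1 := pm'_mul b k l
  have h2 := pm'_conv b k l m
  have h3 := pm'_abs b k l
  have h4 : pm' b k l * (w - l) * ((m - l) / ε) ≤ 1 / ε * |w - l| := by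
    calc pm' b k l * (w - l) * ((m - l) / ε) ≤ |pm' b k l * (w - l) * ((m - l) / ε)| := le_abs_self _
      _ = |pm' b k l| * |w - l| * (|m - l| / ε) := by
          rw [abs_mul, abs_mul, abs_div, abs_of_pos hε]
      _ ≤ 1 * |w - l| * (1 / ε) := by
          gcongr
          rw [abs_le]
          constructor <;> linarith [hl.1, hl.2, hm.1, hm.2]
      _ = _ := by ring
  have h5 : k / ε * (pm' b k l * (m - l)) ≤ k / ε * (pm b k m - pm b k l) := by
    have : 0 ≤ k / ε := div_nonneg hk.1 hε.le
    gcongr
  have e : pm' b k l * ((m - l) / ε) * w =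
      k / ε * (pm' b k l * (m - l)) + (pm' b k l * (l - k)) * ((m - l) / ε) +
        pm' b k l * (w - l) * ((m - l) / ε) := by
    field_simp
    ring
  rw [e, h1]
  linarith

/-- convergence of the difference quotients -/
theorem dq_tendsto {U : ℝ → ℝ → ℝ} {t x a : ℝ} (h : HasDerivAt (fun y => U t y) a x) :
    Tendsto (fun δ => dq δ U t x) (𝓝[>] 0) (𝓝 a) := by
  have h1 := h.tendsto_slope_zero_right
  refine h1.congr fun δ => ?_
  unfold dq
  rw [smul_eq_mul, div_eq_inv_mul]

theorem lhs_lim {ub : ℝ → ℝ} {ε : ℝ} {u U : ℝ → ℝ → ℝ} (h : NL ub ε u U) (b : Bool) {k : ℝ}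
    (hk : k ∈ Icc (0:ℝ) 1) {M L : ℝ} {φ : ℝ → ℝ → ℝ} (hφ : TestFn M L φ) (t : ℝ) :
    Tendsto (fun δ => ∫ x : ℝ, pm b k (dq δ U t x) * φ t x) (𝓝[>] 0)
      (𝓝 (∫ x : ℝ, pm b k (deriv (fun y => U t y) x) * φ t x)) := by
  have e1 : ∀ g : ℝ → ℝ, (∫ x : ℝ, g x * φ t x) = ∫ x in (-(|M| + 1))..(|M| + 1), g x * φ t x :=
    fun g => int_eq fun x hx => by rw [TF_zero hφ hx, mul_zero]
  simp only [e1]
  have hφc : Continuous (fun x => φ t x) := hφ.cont.comp (Continuous.prodMk_right t)
  apply intervalIntegral.tendsto_integral_filter_of_dominated_convergence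
    (fun _ => 1 * (L * (2 * (|M| + 1))))
  · refine Eventually.of_forall fun δ => ?_
    have h1 : Continuous (fun x => dq δ U t x) := h.pot.dq_cont.comp (Continuous.prodMk_right t)
    exact (((pm_cont b k).comp h1).mul hφc).aestronglyMeasurable
  · filter_upwards [self_mem_nhdsWithin] with δ hδ
    refine ae_of_all _ fun x _ => ?_
    rw [Real.norm_eq_abs, abs_mul, abs_of_nonneg (pm_nonneg _ _ _)]
    gcongr
    · exact pm_le_one b hk (h.pot.dq_mem hδ t x)
    · exact TF_bdd hφ t x
  · exact intervalIntegrable_const
  · have h1 : ∀ᵐ x : ℝ, DifferentiableAt ℝ (fun y => U t y) x :=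
      lip_ae (K := 1) fun x y => by rw [one_mul]; exact h.pot.lip_x t x y
    filter_upwards [h1] with x hx _
    exact (((pm_cont b k).tendsto _).comp (dq_tendsto hx.hasDerivAt)).mul_const _

end Pool.Agent.W749.TF
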